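import Pool.Agent.Lib.MP_7c5fb9_nt.TOR.Stmts

set_option autoImplicit false

/-!
# Values of a form: finite generation and continuity (project TOR)
-/

namespace Pool.Agent.Lib.MP_7c5fb9_nt

namespace TOR

noncomputable section

namespace FinAux

/-- Artin-Rees for a subgroup of a finitely generated subgroup of the complex numbers. -/
theorem artin (M N : Submodule ℤ ℂ) (hM : M.FG) :
    ∃ k : ℕ, ∀ w ∈ M, ((3 : ℤ) ^ (k + 1)) • w ∈ N → ∃ z ∈ N, ((3 : ℤ) ^ (k + 1)) • w = 3 * z := by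
  have : Module.Finite ℤ M := Module.Finite.iff_fg.2 hM
  obtain ⟨k, hk⟩ := Ideal.exists_pow_inf_eq_pow_smul (Ideal.span {(3 : ℤ)})
    (N.comap M.subtype : Submodule ℤ M)
  refine ⟨k, fun w hw hN' => ?_⟩
  have h1 := hk (k + 1) (Nat.le_succ k)
  have h2 : (((3 : ℤ) ^ (k + 1)) • (⟨w, hw⟩ : M)) ∈
      (Ideal.span {(3 : ℤ)} ^ (k + 1) • ⊤ ⊓ N.comap M.subtype : Submodule ℤ M) := by
    refine ⟨?_, ?_⟩
    · apply Submodule.smul_mem_smul _ Submodule.mem_top
      rw [Ideal.span_singleton_pow]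
      exact Ideal.mem_span_singleton_self _
    · exact hN'
  rw [h1, Nat.add_sub_cancel_left, pow_one, Submodule.ideal_span_singleton_smul] at h2
  obtain ⟨b, hb, e⟩ := h2
  refine ⟨(b : ℂ), hb.2, ?_⟩
  have e2 := congrArg (fun t : M => (t : ℂ)) e
  have e3 : (((3 : ℤ) • b : M) : ℂ) = ((((3 : ℤ) ^ (k + 1)) • (⟨w, hw⟩ : M) : M) : ℂ) := e2
  rw [Submodule.coe_smul, Submodule.coe_smul] at e3
  rw [← e3, zsmul_eq_mul]
  norm_num

end FinAux

theorem stFin : StFin := by
  intro ℓ m Φ hΦ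
  classical
  choose P _ hP using hΦ.poly
  set R : Finset (Fin 3 → ℤ) := Fintype.piFinset (fun _ => Finset.Ico (0 : ℤ) (3 ^ m)) with hR
  set T : Finset ℂ := R.biUnion (fun r => (P r).support.image (fun d => (P r).coeff d)) with hT
  set M : Submodule ℤ ℂ := Submodule.span ℤ (T : Set ℂ) with hM
  have hfg : M.FG := ⟨T, rfl⟩
  have cof : ∀ r ∈ R, ∀ d ∈ (P r).support, (P r).coeff d ∈ M := by
    intro r hr d hd
    apply Submodule.subset_span
    rw [hT, Finset.coe_biUnion]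
    exact Set.mem_biUnion hr (Finset.mem_coe.2 (Finset.mem_image_of_mem _ hd))
  have hred : ∀ x : Fin 3 → ℤ, (fun i => x i % 3 ^ m) ∈ R := by
    intro x
    rw [hR, Fintype.mem_piFinset]
    intro i
    rw [Finset.mem_Ico]
    have h3 : (0 : ℤ) < 3 ^ m := by positivity
    exact ⟨Int.emod_nonneg _ h3.ne', Int.emod_lt_of_pos _ h3⟩
  have hmod : ∀ (x : Fin 3 → ℤ) (i : Fin 3), (3 ^ m : ℤ) ∣ x i - x i % 3 ^ m := fun x i =>
    Int.dvd_self_sub_emod
  have hval : ∀ (r x : Fin 3 → ℤ), (∀ i, (3 ^ m : ℤ) ∣ x i - r i) →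
      Φ x = ∑ d ∈ (P r).support, (∏ i, x i ^ d i : ℤ) • (P r).coeff d := by
    intro r x hx
    rw [hP r x hx, MvPolynomial.eval_eq']
    apply Finset.sum_congr rfl
    intro d _
    rw [zsmul_eq_mul, mul_comm]
    push_cast
    rfl
  have hmemM : ∀ x, Φ x ∈ M := by
    intro x
    rw [hval _ x (hmod x)]
    exact Submodule.sum_mem _ fun d hd => Submodule.smul_mem _ _ (cof _ (hred x) d hd)
  set N : AddSubgroup ℂ := AddSubgroup.closure (Set.image Φ {x | nrm x % 3 = 1}) with hN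
  have hle : AddSubgroup.toIntSubmodule N ≤ M := by
    intro z hz
    have hz' : z ∈ N := hz
    have : N ≤ M.toAddSubgroup := by
      rw [hN, AddSubgroup.closure_le]
      rintro _ ⟨x, _, rfl⟩
      exact hmemM x
    exact this hz'
  constructor
  · have : IsNoetherian ℤ M := isNoetherian_of_fg_of_noetherian M hfg
    have h1 : (AddSubgroup.toIntSubmodule N).FG := by
      have h2 : ((AddSubgroup.toIntSubmodule N).comap M.subtype).FG := IsNoetherian.noetherian _
      have h3 := h2.map M.subtype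
      rwa [Submodule.map_comap_subtype, inf_eq_right.2 hle] at h3
    have h4 := (Submodule.fg_iff_addSubgroup_fg _).1 h1
    exact h4
  · obtain ⟨k, hk⟩ := FinAux.artin M (AddSubgroup.toIntSubmodule N) hfg
    refine ⟨max m (k + 1), ?_⟩
    intro x y hx hy hxy
    have hm : ∀ i, (3 ^ m : ℤ) ∣ x i - y i := fun i =>
      dvd_trans (pow_dvd_pow 3 (le_max_left m (k + 1))) (hxy i)
    have hk1 : ∀ i, (3 ^ (k + 1) : ℤ) ∣ x i - y i := fun i =>
      dvd_trans (pow_dvd_pow 3 (le_max_right m (k + 1))) (hxy i)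
    set r : Fin 3 → ℤ := fun i => x i % 3 ^ m with hr
    have hyr : ∀ i, (3 ^ m : ℤ) ∣ y i - r i := by
      intro i
      have h5 := dvd_sub (hmod x i) (hm i)
      have h6 : x i - x i % 3 ^ m - (x i - y i) = y i - r i := by
        rw [hr]
        ring
      rwa [h6] at h5
    have hprod : ∀ d : Fin 3 →₀ ℕ, (3 ^ (k + 1) : ℤ) ∣ (∏ i, x i ^ d i) - ∏ i, y i ^ d i := by
      intro d
      apply (Int.modEq_iff_dvd).1
      apply Int.ModEq.prod
      intro i _
      apply Int.ModEq.pow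
      exact (Int.modEq_iff_dvd).2 (hk1 i)
    choose c hc using hprod
    set w : ℂ := ∑ d ∈ (P r).support, c d • (P r).coeff d with hw
    have hwM : w ∈ M :=
      Submodule.sum_mem _ fun d hd => Submodule.smul_mem _ _ (cof _ (hred x) d hd)
    have hdiff : Φ x - Φ y = ((3 : ℤ) ^ (k + 1)) • w := by
      rw [hval r x (hmod x), hval r y hyr, ← Finset.sum_sub_distrib, hw, Finset.smul_sum]
      apply Finset.sum_congr rfl
      intro d _
      rw [← sub_smul, hc d, mul_smul]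
    have hmemN : Φ x - Φ y ∈ N :=
      N.sub_mem (AddSubgroup.subset_closure ⟨x, hx, rfl⟩) (AddSubgroup.subset_closure ⟨y, hy, rfl⟩)
    obtain ⟨z, hz, e⟩ := hk w hwM (by rw [← hdiff]; exact hmemN)
    exact ⟨z, hz, by rw [hdiff, e]⟩

end

end TOR

end Pool.Agent.Lib.MP_7c5fb9_nt
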