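import Pool.Agent.Lib.MP_7c5fb9_nt.TOR.Stmts

set_option autoImplicit false

/-!
# The criterion and the main theorem from the modules
-/

namespace Pool.Agent.Lib.MP_7c5fb9_nt

namespace TOR

open scoped Quaternion nonZeroDivisors

/-- The criterion. -/
theorem stCrit (hRed : StRed) (hToric : StToric) (hEmb : StEmb) (hThree : StThree) : StCrit := by
  intro ℓ m Φ hΦ hℓ h5 h7 h0 n hn h8 h3 K _ _ s hK hs hcl
  obtain ⟨N, θ, hθ⟩ := hRed ℓ m Φ hΦ hℓ h5 h7 h0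
  have hn0 : 0 < n := Nat.pos_of_ne_zero hn.ne_zero
  refine ⟨?_, fun ι hι => ?_⟩
  · obtain ⟨x, hx⟩ := hThree n hn h8
    obtain ⟨ι, -, hι⟩ := hEmb K s n hK hs hn h8 x hx
    exact ⟨ι, hι⟩
  · obtain ⟨hex, hnorm⟩ := hToric K s n hn0 hs ι hι
    refine ⟨hex, fun y hy hsum => ?_⟩
    have hmod : ∀ c, nrm (y c) % 3 = 1 := by
      intro c
      rw [hnorm c (y c) (hy c)]
      omega
    choose hN hone using fun c => hθ (y c) (hmod c)
    have h1 : θ (∑ c, ⟨Φ (y c), hN c⟩) =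
        (Fintype.card (ClassGroup (NumberField.RingOfIntegers K)) : ZMod 3) := by
      rw [map_sum]
      simp only [hone, Finset.sum_const, Finset.card_univ, nsmul_eq_mul, mul_one]
    have h2 : (∑ c, (⟨Φ (y c), hN c⟩ : N)) = 0 := by
      apply Subtype.ext
      rw [AddSubgroup.val_finset_sum]
      exact hsum
    rw [h2, map_zero] at h1
    refine hcl ?_
    rw [Nat.card_eq_fintype_card]
    exact (ZMod.natCast_eq_zero_iff _ _).mp h1.symm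

/-- The main theorem. -/
theorem stMain (hCrit : StCrit) (hDH : StDH) : StMain := by
  intro ℓ m Φ hΦ hℓ h5 h7 h0 r hr
  obtain ⟨⟨c, hc, X₀, hX₀⟩, hhalf⟩ := hDH r hr
  have hsub : ∀ X : ℕ, {n : ℕ | n ≤ X ∧ Cls r n ∧ n % 3 = 1 ∧
      ∀ (K : Type) [Field K] [NumberField K] (s : K), Module.finrank ℚ K = 2 →
        s ^ 2 = -(n : K) →
          ¬ 3 ∣ Nat.card (ClassGroup (NumberField.RingOfIntegers K))} ⊆
      {n : ℕ | n ≤ X ∧ Cls r n ∧ n % 3 = 1 ∧ NonVan Φ n} := by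
    rintro X n ⟨h1, h2, h3, h4⟩
    refine ⟨h1, h2, h3, fun K _ _ s hK hs => ?_⟩
    refine hCrit ℓ m Φ hΦ hℓ h5 h7 h0 n h2.1 ?_ h3 K s hK hs (h4 K s hK hs)
    have h5 := h2.2
    simp only [Finset.mem_insert, Finset.mem_singleton] at hr
    rcases hr with rfl | rfl | rfl | rfl | rfl | rfl | rfl <;> norm_num at h5 <;> omega
  have hfin : ∀ X : ℕ, {n : ℕ | n ≤ X ∧ Cls r n ∧ n % 3 = 1 ∧ NonVan Φ n}.Finite := fun X =>
    (Set.finite_Iic X).subset fun n hn => hn.1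
  have hcard : ∀ X : ℕ, ({n : ℕ | n ≤ X ∧ Cls r n ∧ n % 3 = 1 ∧
      ∀ (K : Type) [Field K] [NumberField K] (s : K), Module.finrank ℚ K = 2 →
        s ^ 2 = -(n : K) →
          ¬ 3 ∣ Nat.card (ClassGroup (NumberField.RingOfIntegers K))}.ncard : ℝ) ≤
      ({n : ℕ | n ≤ X ∧ Cls r n ∧ n % 3 = 1 ∧ NonVan Φ n}.ncard : ℝ) := by
    intro X
    exact_mod_cast Set.ncard_le_ncard (hsub X) (hfin X)
  refine ⟨⟨c / 4, by positivity, ?_⟩, fun ε hε => ?_⟩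
  · obtain ⟨X₁, hX₁⟩ := hhalf (1 / 4) (by norm_num)
    refine ⟨max X₀ X₁, fun X hX => ?_⟩
    have h1 := hX₀ X ((le_max_left _ _).trans hX)
    have h2 := hX₁ X ((le_max_right _ _).trans hX)
    have h3 := hcard X
    have h4 : (1 / 2 - 1 / 4 : ℝ) * (c * X) ≤
        (1 / 2 - 1 / 4) * ({n : ℕ | n ≤ X ∧ Cls r n ∧ n % 3 = 1}.ncard : ℝ) :=
      mul_le_mul_of_nonneg_left h1 (by norm_num)
    have h5 : c / 4 * X = (1 / 2 - 1 / 4 : ℝ) * (c * X) := by ring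
    rw [h5]
    exact h4.trans (h2.trans h3)
  · obtain ⟨X₁, hX₁⟩ := hhalf ε hε
    exact ⟨X₁, fun X hX => (hX₁ X hX).trans (hcard X)⟩

end TOR

end Pool.Agent.Lib.MP_7c5fb9_nt
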