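import Pool.Agent.Lib.MP_7c5fb9_nt.TOR.Stmts
import Pool.Agent.Lib.MP_7c5fb9_nt.DH.ClassHalf

/-!
At least half of the imaginary quadratic fields with prescribed behaviour at `2`, in which `3` is
inert, have class number prime to `3`: statement in terms of the squarefree integer `n`.
-/

set_option autoImplicit false

namespace Pool.Agent.Lib.MP_7c5fb9_nt

namespace TOR

open BKDH

/-- The discriminant is `-e n`; the class of `e n` is `r'` modulo `M`. -/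
def Tr (r e M r' : ℕ) : Prop :=
  (r = 3 ∧ e = 1 ∧ M = 8 ∧ r' = 3) ∨ (r = 1 ∧ e = 4 ∧ M = 32 ∧ r' = 4) ∨
  (r = 5 ∧ e = 4 ∧ M = 32 ∧ r' = 20) ∨ (r = 2 ∧ e = 4 ∧ M = 64 ∧ r' = 8) ∨
  (r = 6 ∧ e = 4 ∧ M = 64 ∧ r' = 24) ∨ (r = 10 ∧ e = 4 ∧ M = 64 ∧ r' = 40) ∨
  (r = 14 ∧ e = 4 ∧ M = 64 ∧ r' = 56)

theorem exists_Tr {r : ℕ} (hr : r ∈ ({1, 2, 3, 5, 6, 10, 14} : Finset ℕ)) :
    ∃ e M r' : ℕ, Tr r e M r' := by
  unfold Tr
  simp only [Finset.mem_insert, Finset.mem_singleton] at hr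
  rcases hr with rfl | rfl | rfl | rfl | rfl | rfl | rfl
  · exact ⟨4, 32, 4, by norm_num⟩
  · exact ⟨4, 64, 8, by norm_num⟩
  · exact ⟨1, 8, 3, by norm_num⟩
  · exact ⟨4, 32, 20, by norm_num⟩
  · exact ⟨4, 64, 24, by norm_num⟩
  · exact ⟨4, 64, 40, by norm_num⟩
  · exact ⟨4, 64, 56, by norm_num⟩

theorem Tr.cls {r e M r' : ℕ} (h : Tr r e M r') : TwoClass M r' := by
  unfold Tr at h
  unfold TwoClass
  omega

theorem Tr.e {r e M r' : ℕ} (h : Tr r e M r') : e = 1 ∨ e = 4 := by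
  unfold Tr at h
  omega

theorem Tr.mod {r e M r' : ℕ} (h : Tr r e M r') (n : ℕ) :
    (e * n) % M = r' ↔ n % (if r % 2 = 1 then 8 else 16) = r := by
  unfold Tr at h
  rcases h with ⟨rfl, rfl, rfl, rfl⟩ | ⟨rfl, rfl, rfl, rfl⟩ | ⟨rfl, rfl, rfl, rfl⟩ |
    ⟨rfl, rfl, rfl, rfl⟩ | ⟨rfl, rfl, rfl, rfl⟩ | ⟨rfl, rfl, rfl, rfl⟩ | ⟨rfl, rfl, rfl, rfl⟩ <;>
  norm_num <;> omega

theorem Tr.two {r e M r' : ℕ} (h : Tr r e M r') {n : ℕ} (hn : (e * n) % M = r') :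
    n % 4 ≠ 0 ∧ F2 ((e * n : ℕ) : ℤ) := by
  unfold Tr at h
  unfold F2
  rcases h with ⟨rfl, rfl, rfl, rfl⟩ | ⟨rfl, rfl, rfl, rfl⟩ | ⟨rfl, rfl, rfl, rfl⟩ |
    ⟨rfl, rfl, rfl, rfl⟩ | ⟨rfl, rfl, rfl, rfl⟩ | ⟨rfl, rfl, rfl, rfl⟩ | ⟨rfl, rfl, rfl, rfl⟩ <;>
  (push_cast; omega)

theorem Tr.div {r e M r' : ℕ} (h : Tr r e M r') {Δ : ℕ} (hn : Δ % M = r') : ∃ n, Δ = e * n := by
  unfold Tr at h
  rcases h with ⟨rfl, rfl, rfl, rfl⟩ | ⟨rfl, rfl, rfl, rfl⟩ | ⟨rfl, rfl, rfl, rfl⟩ |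
    ⟨rfl, rfl, rfl, rfl⟩ | ⟨rfl, rfl, rfl, rfl⟩ | ⟨rfl, rfl, rfl, rfl⟩ | ⟨rfl, rfl, rfl, rfl⟩
  · exact ⟨Δ, by omega⟩
  all_goals exact ⟨Δ / 4, by omega⟩

theorem Tr.fund {r e M r' : ℕ} (h : Tr r e M r') (n : ℕ) :
    (IsFund (e * n) ∧ (e * n) % M = r') ↔ Cls r n := by
  unfold Cls
  rw [h.mod n]
  constructor
  · rintro ⟨⟨h1, h2⟩, h3⟩
    refine ⟨?_, h3⟩
    rw [Nat.squarefree_iff_prime_squarefree]
    intro p hp hd
    by_cases hp2 : p = 2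
    · subst hp2
      have := (h.two ((h.mod n).2 h3)).1
      omega
    · exact h2 p hp hp2 (by rw [sq]; exact hd.trans (Dvd.intro_left e rfl))
  · rintro ⟨h1, h2⟩
    refine ⟨⟨(h.two ((h.mod n).2 h2)).2, ?_⟩, h2⟩
    intro p hp hp2 hd
    have hc : Nat.Coprime (p ^ 2) e := by
      refine Nat.Coprime.pow_left 2 ?_
      rw [Nat.Prime.coprime_iff_not_dvd hp]
      intro hpe
      rcases h.e with rfl | rfl
      · exact hp.one_lt.ne' (Nat.dvd_one.1 hpe)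
      · have h4 : p ∣ 2 ^ 2 := by norm_num; exact hpe
        exact hp2 ((Nat.prime_dvd_prime_iff_eq hp Nat.prime_two).1 (hp.dvd_of_dvd_pow h4))
    have hd' : p ^ 2 ∣ n := (Nat.Coprime.dvd_mul_left hc).1 hd
    rw [sq] at hd'
    exact (Nat.squarefree_iff_prime_squarefree.1 h1) p hp hd'

theorem Tr.three {r e M r' : ℕ} (h : Tr r e M r') (n : ℕ) : (e * n) % 3 = 1 ↔ n % 3 = 1 := by
  rcases h.e with rfl | rfl <;> omega

/-- The good numbers. -/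
def Good (n : ℕ) : Prop :=
  ∀ (K : Type) [Field K] [NumberField K] (s : K), Module.finrank ℚ K = 2 →
    s ^ 2 = -(n : K) → ¬ 3 ∣ Nat.card (ClassGroup (NumberField.RingOfIntegers K))

theorem Tr.good {r e M r' : ℕ} (h : Tr r e M r') {n : ℕ} (hg : NoThree (e * n)) : Good n := by
  intro K _ _ s hd hs
  rcases h.e with rfl | rfl
  · exact hg K s (by rw [hs]; push_cast; ring) hd
  · exact hg K (2 * s) (by rw [mul_pow, hs]; push_cast; ring) hd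

theorem stDH : StDH := by
  intro r hr
  obtain ⟨e, M, r', h⟩ := exists_Tr hr
  have he : e = 1 ∨ e = 4 := h.e
  have he0 : 0 < e := by omega
  have hM := twoClass_M h.cls
  have hM0 : 0 < M := by omega
  have hMr : (0 : ℝ) < M := by exact_mod_cast hM0
  have her : (1 : ℝ) ≤ e := by
    have : 1 ≤ e := he0
    exact_mod_cast this
  have hinj : Function.Injective (fun n : ℕ => e * n) := fun a b hab =>
    Nat.eq_of_mul_eq_mul_left he0 hab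
  have key : ∀ X : ℕ, {Δ : ℕ | Δ ≤ e * X ∧ IsFund Δ ∧ Δ % 3 = 1 ∧ Δ % M = r'} =
      (fun n : ℕ => e * n) '' {n : ℕ | n ≤ X ∧ Cls r n ∧ n % 3 = 1} := by
    intro X
    ext Δ
    simp only [Set.mem_ofPred_eq, Set.mem_image]
    constructor
    · rintro ⟨h1, h2, h3, h4⟩
      obtain ⟨n, rfl⟩ := h.div h4
      exact ⟨n, ⟨Nat.le_of_mul_le_mul_left h1 he0, (h.fund n).1 ⟨h2, h4⟩, (h.three n).1 h3⟩, rfl⟩
    · rintro ⟨n, ⟨h1, h2, h3⟩, rfl⟩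
      have h4 := (h.fund n).2 h2
      exact ⟨Nat.mul_le_mul_left e h1, h4.1, (h.three n).2 h3, h4.2⟩
  have hcard : ∀ X : ℕ, {Δ : ℕ | Δ ≤ e * X ∧ IsFund Δ ∧ Δ % 3 = 1 ∧ Δ % M = r'}.ncard =
      {n : ℕ | n ≤ X ∧ Cls r n ∧ n % 3 = 1}.ncard := by
    intro X
    rw [key X, Set.ncard_image_of_injective _ hinj]
  have hgood : ∀ X : ℕ,
      {Δ : ℕ | Δ ≤ e * X ∧ IsFund Δ ∧ Δ % 3 = 1 ∧ Δ % M = r' ∧ NoThree Δ}.ncard ≤
      {n : ℕ | n ≤ X ∧ Cls r n ∧ n % 3 = 1 ∧ Good n}.ncard := by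
    intro X
    rw [← Set.ncard_image_of_injective {n : ℕ | n ≤ X ∧ Cls r n ∧ n % 3 = 1 ∧ Good n} hinj]
    refine Set.ncard_le_ncard ?_ (((Set.finite_Iic X).subset fun n hn => hn.1).image _)
    rintro Δ ⟨h1, h2, h3, h4, h5⟩
    obtain ⟨n, rfl⟩ := h.div h4
    exact ⟨n, ⟨Nat.le_of_mul_le_mul_left h1 he0, (h.fund n).1 ⟨h2, h4⟩, (h.three n).1 h3,
      h.good h5⟩, rfl⟩
  have hpi := Real.pi_pos
  refine ⟨?_, ?_⟩
  · refine ⟨3 / (M * Real.pi ^ 2) / 2, by positivity, ?_⟩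
    obtain ⟨X₀, hX₀⟩ := classHalf h.cls (3 / (M * Real.pi ^ 2) / 2) (by positivity)
    refine ⟨X₀, fun X hX => ?_⟩
    have h1 := (hX₀ (e * X) (hX.trans (Nat.le_mul_of_pos_left X he0))).1
    rw [hcard X] at h1
    refine le_trans ?_ h1
    have hX0 : (0 : ℝ) ≤ X := Nat.cast_nonneg X
    have hc : (0 : ℝ) ≤ 3 / (M * Real.pi ^ 2) / 2 := by positivity
    push_cast
    have e1 : 3 / (M * Real.pi ^ 2) - 3 / (M * Real.pi ^ 2) / 2 =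
      3 / (M * Real.pi ^ 2) / 2 := by ring
    rw [e1]
    have e2 : (X : ℝ) ≤ e * X := le_mul_of_one_le_left hX0 her
    exact mul_le_mul_of_nonneg_left e2 hc
  · intro ε hε
    obtain ⟨X₀, hX₀⟩ := classHalf h.cls ε hε
    refine ⟨X₀, fun X hX => ?_⟩
    have h1 := (hX₀ (e * X) (hX.trans (Nat.le_mul_of_pos_left X he0))).2
    rw [hcard X] at h1
    exact h1.trans (Nat.cast_le.2 (hgood X))

end TOR

end Pool.Agent.Lib.MP_7c5fb9_nt
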