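import Mathlib

set_option autoImplicit false

/-!
# Toric periods on the Hamilton quaternions (MP_7c5fb9_nt): definitions

Points of `Z^3` are identified with pure quaternions.
-/

namespace Pool.Agent.Lib.MP_7c5fb9_nt

namespace TOR

open scoped Quaternion nonZeroDivisors

noncomputable section

/-- The pure quaternion with coordinates `x`. -/
def pt (x : Fin 3 → ℤ) : ℍ[ℤ] := ⟨0, x 0, x 1, x 2⟩

/-- The imaginary part of a quaternion. -/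
def vec (q : ℍ[ℤ]) : Fin 3 → ℤ := ![q.imI, q.imJ, q.imK]

/-- The norm form `|x|^2`. -/
def nrm (x : Fin 3 → ℤ) : ℤ := x 0 ^ 2 + x 1 ^ 2 + x 2 ^ 2

/-- `Φ` is, on every residue class modulo `3 ^ m`, given by a homogeneous polynomial of degree `ℓ`;
it is homogeneous of degree `ℓ` for the integers prime to `3`, and invariant under the `48`
signed permutations of the coordinates. -/
structure Form (ℓ m : ℕ) (Φ : (Fin 3 → ℤ) → ℂ) : Prop where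
  poly : ∀ r : Fin 3 → ℤ, ∃ P : MvPolynomial (Fin 3) ℂ, P.IsHomogeneous ℓ ∧
    ∀ x : Fin 3 → ℤ, (∀ i, (3 ^ m : ℤ) ∣ x i - r i) →
      Φ x = MvPolynomial.eval (fun i => ((x i : ℤ) : ℂ)) P
  scal : ∀ (c : ℤ) (x : Fin 3 → ℤ), ¬ (3 : ℤ) ∣ c → Φ (fun i => c * x i) = (c : ℂ) ^ ℓ * Φ x
  cube : ∀ (σ : Equiv.Perm (Fin 3)) (ε : Fin 3 → ℤˣ) (x : Fin 3 → ℤ),
    Φ (fun i => (ε i : ℤ) * x (σ i)) = Φ x

/-- The Hecke operator `T_p`: the sum over all integral quaternions of norm `p`. -/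
def hecke (p : ℕ) (Φ : (Fin 3 → ℤ) → ℂ) (x : Fin 3 → ℤ) : ℂ :=
  ∑ᶠ α ∈ {α : ℍ[ℤ] | α.re ^ 2 + α.imI ^ 2 + α.imJ ^ 2 + α.imK ^ 2 = (p : ℤ)},
    Φ (vec (α * pt x * star α))

/-- Eigenfunction of `T_p` on the points with `|x|^2 = 1` modulo `3`. -/
def Eig (p : ℕ) (Φ : (Fin 3 → ℤ) → ℂ) : Prop :=
  ∃ c : ℂ, ∀ x : Fin 3 → ℤ, nrm x % 3 = 1 → hecke p Φ x = c * Φ x

/-! ### The Hurwitz order and toric points -/

/-- The Hurwitz order: all four coordinates integral, or all four half of an odd integer. -/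
def IsHur (q : ℍ[ℚ]) : Prop :=
  ∃ a b c d : ℤ, 2 ∣ a - b ∧ 2 ∣ a - c ∧ 2 ∣ a - d ∧
    q = ⟨(a : ℚ) / 2, (b : ℚ) / 2, (c : ℚ) / 2, (d : ℚ) / 2⟩

/-- The pure rational quaternion with integral coordinates `x`. -/
def ptQ (x : Fin 3 → ℤ) : ℍ[ℚ] := ⟨0, (x 0 : ℚ), (x 1 : ℚ), (x 2 : ℚ)⟩

/-- An optimal embedding of the quadratic field `K` into the rational Hamilton quaternions. -/
def Optimal {K : Type} [Field K] [NumberField K] (ι : K →+* ℍ[ℚ]) : Prop :=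
  ∀ a : NumberField.RingOfIntegers K, IsHur (ι (a : K))

/-- The right ideal of the Hurwitz order generated by an ideal of `K`. -/
def ext {K : Type} [Field K] [NumberField K] (ι : K →+* ℍ[ℚ])
    (I : Ideal (NumberField.RingOfIntegers K)) : AddSubgroup ℍ[ℚ] :=
  AddSubgroup.closure {q | ∃ a ∈ I, ∃ o : ℍ[ℚ], IsHur o ∧ q = ι (a : K) * o}

/-- `y` is the point attached to the ideal class `c`: the right ideal generated by an ideal `I` of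
the class `c` is `γ O`, and `y = γ⁻¹ ι(s) γ`. -/
def ToricPt {K : Type} [Field K] [NumberField K] (ι : K →+* ℍ[ℚ]) (s : K)
    (c : ClassGroup (NumberField.RingOfIntegers K)) (y : Fin 3 → ℤ) : Prop :=
  ∃ (I : (Ideal (NumberField.RingOfIntegers K))⁰) (γ : ℍ[ℚ]), ClassGroup.mk0 I = c ∧ γ ≠ 0 ∧
    (∀ q : ℍ[ℚ], q ∈ ext ι I ↔ ∃ o : ℍ[ℚ], IsHur o ∧ q = γ * o) ∧
    γ * ptQ y = ι s * γ

/-- The toric periods of `Φ` over `K` do not vanish: for every optimal embedding `ι` of `K` (and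
there is one) there are points attached to the ideal classes, and the sum of `Φ` over them is not
`0`. -/
def NonVanK (Φ : (Fin 3 → ℤ) → ℂ) (K : Type) [Field K] [NumberField K] (s : K) : Prop :=
  (∃ ι : K →+* ℍ[ℚ], Optimal ι) ∧ ∀ ι : K →+* ℍ[ℚ], Optimal ι →
    (∃ y : ClassGroup (NumberField.RingOfIntegers K) → Fin 3 → ℤ, ∀ c, ToricPt ι s c (y c)) ∧
    ∀ y : ClassGroup (NumberField.RingOfIntegers K) → Fin 3 → ℤ, (∀ c, ToricPt ι s c (y c)) →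
      ∑ c, Φ (y c) ≠ 0

/-- The same for the field `Q(√-n)`. -/
def NonVan (Φ : (Fin 3 → ℤ) → ℂ) (n : ℕ) : Prop :=
  ∀ (K : Type) [Field K] [NumberField K] (s : K), Module.finrank ℚ K = 2 → s ^ 2 = -(n : K) →
    NonVanK Φ K s

/-- The seven ramified or inert behaviours of `Q(√-n)` at `2`, `n` squarefree:
`n ≡ 1, 3, 5` modulo `8` or `n ≡ 2, 6, 10, 14` modulo `16`. -/
def Cls (r n : ℕ) : Prop := Squarefree n ∧ n % (if r % 2 = 1 then 8 else 16) = r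

/-! ### Functions with values in the field with three elements -/

/-- The action of quaternions on functions. -/
def rho (q : ℍ[ℤ]) (F : ℍ[ℤ] → ZMod 3) (x : ℍ[ℤ]) : ZMod 3 := F (star q * x * q)

/-- The functions of level `3 ^ m` on `{x : |x|^2 = 1 mod 3}`, extended by `0`, invariant under
scalars prime to `3`, and depending on the imaginary part only. -/
structure Lev (m : ℕ) (F : ℍ[ℤ] → ZMod 3) : Prop where
  per : ∀ x y : ℍ[ℤ], F (x + 3 ^ m * y) = F x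
  scal : ∀ (c : ℤ) (x : ℍ[ℤ]), ¬ (3 : ℤ) ∣ c → F (c * x) = F x
  real : ∀ (r : ℤ) (x : ℍ[ℤ]), F (x + r) = F x
  supp : ∀ x : ℍ[ℤ], (x.imI ^ 2 + x.imJ ^ 2 + x.imK ^ 2) % 3 ≠ 1 → F x = 0

/-- Invariance under signed permutations. -/
def Cube (F : ℍ[ℤ] → ZMod 3) : Prop :=
  ∀ (σ : Equiv.Perm (Fin 3)) (ε : Fin 3 → ℤˣ) (x : Fin 3 → ℤ),
    F (pt fun i => (ε i : ℤ) * x (σ i)) = F (pt x)

/-- The characteristic function of `{x : |x|^2 = 1 mod 3}`. -/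
def one3 (x : ℍ[ℤ]) : ZMod 3 := if (x.imI ^ 2 + x.imJ ^ 2 + x.imK ^ 2) % 3 = 1 then 1 else 0

/-- `T_5` on such functions, up to the factor `8`. -/
def T5 (F : ℍ[ℤ] → ZMod 3) : ℍ[ℤ] → ZMod 3 :=
  rho ⟨1, 2, 0, 0⟩ F + rho ⟨1, -2, 0, 0⟩ F + rho ⟨1, 0, 2, 0⟩ F + rho ⟨1, 0, -2, 0⟩ F +
    rho ⟨1, 0, 0, 2⟩ F + rho ⟨1, 0, 0, -2⟩ F

/-- `T_7` on such functions, up to the factor `8`. -/
def T7 (F : ℍ[ℤ] → ZMod 3) : ℍ[ℤ] → ZMod 3 :=
  rho ⟨2, 1, 1, 1⟩ F + rho ⟨2, 1, 1, -1⟩ F + rho ⟨2, 1, -1, 1⟩ F + rho ⟨2, 1, -1, -1⟩ F +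
    rho ⟨2, -1, 1, 1⟩ F + rho ⟨2, -1, 1, -1⟩ F + rho ⟨2, -1, -1, 1⟩ F + rho ⟨2, -1, -1, -1⟩ F

end

end TOR

end Pool.Agent.Lib.MP_7c5fb9_nt
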