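import Pool.Agent.Lib.MP_7c5fb9_nt.TOR.Stmts
import Pool.Agent.Lib.MP_7c08ba_nt.Quad

set_option autoImplicit false

/-! (Emb) sums of three squares give optimal embeddings. -/

namespace Pool.Agent.Lib.MP_7c5fb9_nt

namespace TOR

open scoped Quaternion nonZeroDivisors

namespace EmbM

open NumberField Module

theorem ptQ_sq (x : Fin 3 → ℤ) : ptQ x * ptQ x = (-(nrm x : ℚ)) • (1 : ℍ[ℚ]) := by
  have h : (ptQ x).re = 0 ∧ (ptQ x).imI = x 0 ∧ (ptQ x).imJ = x 1 ∧ (ptQ x).imK = x 2 :=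
    ⟨rfl, rfl, rfl, rfl⟩
  obtain ⟨h0, h1, h2, h3⟩ := h
  have hn : (nrm x : ℚ) = (x 0 : ℚ) ^ 2 + (x 1 : ℚ) ^ 2 + (x 2 : ℚ) ^ 2 := by
    unfold nrm
    push_cast
    ring
  apply Quaternion.ext
  · rw [Quaternion.re_mul, Quaternion.re_smul, h0, h1, h2, h3, Quaternion.re_one, smul_eq_mul, hn]
    ring
  · rw [Quaternion.imI_mul, Quaternion.imI_smul, h0, h1, h2, h3, Quaternion.imI_one, smul_eq_mul]
    ring
  · rw [Quaternion.imJ_mul, Quaternion.imJ_smul, h0, h1, h2, h3, Quaternion.imJ_one, smul_eq_mul]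
    ring
  · rw [Quaternion.imK_mul, Quaternion.imK_smul, h0, h1, h2, h3, Quaternion.imK_one, smul_eq_mul]
    ring

/-- half integers -/
theorem int_coords {K : Type} [Field K] [NumberField K] {n : ℕ} (hn : 0 < n)
    (hsq : Squarefree n) (hK : finrank ℚ K = 2) {s : K} (hs : s ^ 2 = -(n : K)) {a b : ℚ}
    (hz : IsIntegral ℤ ((a : K) + b * s)) :
    ∃ A B N : ℤ, a = A / 2 ∧ b = B / 2 ∧ A ^ 2 + n * B ^ 2 = 4 * N := by
  obtain ⟨hN, hT⟩ := MP_7c08ba_nt.norm_trace hn hK hs a b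
  have h1 : IsIntegral ℤ (2 * a) := by
    rw [← hT]
    exact Algebra.isIntegral_trace hz
  have h2 : IsIntegral ℤ (a ^ 2 + n * b ^ 2) := by
    rw [← hN]
    exact Algebra.isIntegral_norm ℚ hz
  obtain ⟨A, hA⟩ := IsIntegrallyClosed.isIntegral_iff.mp h1
  obtain ⟨N, hN'⟩ := IsIntegrallyClosed.isIntegral_iff.mp h2
  have hA' : (A : ℚ) = 2 * a := hA
  have hN'' : (N : ℚ) = a ^ 2 + n * b ^ 2 := hN'
  have h3 : IsIntegral ℤ (n * (2 * b)) := by
    have h4 : ((n : ℚ) * (2 * b)) ^ 2 = ((n * (4 * N - A ^ 2) : ℤ) : ℚ) := by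
      push_cast
      rw [hN'', hA']
      ring
    refine IsIntegral.of_pow (n := 2) (by norm_num) ?_
    rw [h4]
    exact isIntegral_algebraMap (R := ℤ) (A := ℚ)
  obtain ⟨C, hC⟩ := IsIntegrallyClosed.isIntegral_iff.mp h3
  have hC' : (C : ℚ) = n * (2 * b) := hC
  have h5 : C ^ 2 = n * (4 * N - A ^ 2) := by
    have : ((C ^ 2 : ℤ) : ℚ) = ((n * (4 * N - A ^ 2) : ℤ) : ℚ) := by
      push_cast
      rw [hC', hN'', hA']
      ring
    exact_mod_cast this
  have hsq' : Squarefree (n : ℤ) := by exact_mod_cast Int.squarefree_natCast.mpr hsq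
  have h6 : (n : ℤ) ∣ C := (hsq'.dvd_pow_iff_dvd (by norm_num)).mp ⟨_, h5⟩
  obtain ⟨B, rfl⟩ := h6
  have hq' : (n : ℚ) ≠ 0 := by exact_mod_cast hn.ne'
  have h7 : (B : ℚ) = 2 * b := by
    apply mul_left_cancel₀ hq'
    rw [← hC']
    push_cast
    rfl
  refine ⟨A, B, N, by rw [hA']; ring, by rw [h7]; ring, ?_⟩
  have h8 : ((A ^ 2 + n * B ^ 2 : ℤ) : ℚ) = ((4 * N : ℤ) : ℚ) := by
    push_cast
    rw [hN'', hA', h7]
    ring
  exact_mod_cast h8

/-- parities -/
theorem parity {n A B N : ℤ} {x : Fin 3 → ℤ} (hx : nrm x = n) (hn4 : ¬ (4 : ℤ) ∣ n)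
    (h : A ^ 2 + n * B ^ 2 = 4 * N) : ∀ i, 2 ∣ A - B * x i := by
  rcases Int.even_or_odd' B with ⟨b, rfl | rfl⟩
  · have h1 : Even (A ^ 2) := ⟨2 * N - 2 * n * b ^ 2, by linear_combination h⟩
    have h2 : Even A := (Int.even_pow' (by norm_num)).mp h1
    obtain ⟨a, rfl⟩ := h2
    intro i
    exact ⟨a - b * x i, by ring⟩
  · rcases Int.even_or_odd' A with ⟨a, rfl | rfl⟩
    · exact absurd ⟨N - a ^ 2 - n * (b ^ 2 + b), by linear_combination h⟩ hn4
    · have h3 : nrm x = 4 * (N - a ^ 2 - a - n * (b ^ 2 + b)) - 1 := by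
        rw [hx]
        linear_combination h
      have h4 : ∀ i, Odd (x i) := by
        unfold nrm at h3
        have hp : ∀ y : ℤ, ∃ t : ℤ, y ^ 2 = 4 * t + y % 2 := by
          intro y
          rcases Int.even_or_odd' y with ⟨c, rfl | rfl⟩
          · exact ⟨c ^ 2, by rw [Int.mul_emod_right]; ring⟩
          · refine ⟨c ^ 2 + c, ?_⟩
            rw [show (2 * c + 1) % 2 = 1 by omega]
            ring
        obtain ⟨t0, e0⟩ := hp (x 0)
        obtain ⟨t1, e1⟩ := hp (x 1)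
        obtain ⟨t2, e2⟩ := hp (x 2)
        rw [e0, e1, e2] at h3
        have k : x 0 % 2 = 1 ∧ x 1 % 2 = 1 ∧ x 2 % 2 = 1 := by omega
        intro i
        fin_cases i
        · exact Int.odd_iff.mpr k.1
        · exact Int.odd_iff.mpr k.2.1
        · exact Int.odd_iff.mpr k.2.2
      intro i
      obtain ⟨c, hc⟩ := h4 i
      rw [hc]
      exact ⟨a - 2 * b * c - b - c, by ring⟩

end EmbM

open EmbM Module in
/-- (Emb) every representation of `n` as a sum of three squares gives an optimal embedding. -/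
theorem stEmb : StEmb := by
  intro K _ _ s n hK hs hsq _ x hx
  have hn : 0 < n := Nat.pos_of_ne_zero hsq.ne_zero
  obtain ⟨B, h0, h1⟩ := MP_7c08ba_nt.exists_basis hn hK hs
  set L : K →ₗ[ℚ] ℍ[ℚ] := B.constr ℚ ![1, ptQ x] with hL
  have hval : ∀ a b : ℚ, L ((a : K) + b * s) = a • (1 : ℍ[ℚ]) + b • ptQ x := by
    intro a b
    have e1 : (a : K) + b * s = a • B 0 + b • B 1 := by
      rw [h0, h1, Algebra.smul_def, Algebra.smul_def, mul_one]
      rfl
    rw [e1, map_add, map_smul, map_smul, hL, B.constr_basis, B.constr_basis]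
    simp only [Matrix.cons_val_zero, Matrix.cons_val_one]
  have hsqx : ptQ x * ptQ x = (-(n : ℚ)) • (1 : ℍ[ℚ]) := by
    rw [ptQ_sq, hx, Int.cast_natCast]
  have hone : L 1 = 1 := by
    have := hval 1 0
    simpa using this
  have hmul : ∀ u v : K, L (u * v) = L u * L v := by
    intro u v
    obtain ⟨a, b, rfl⟩ := MP_7c08ba_nt.exists_coords hn hK hs u
    obtain ⟨c, d, rfl⟩ := MP_7c08ba_nt.exists_coords hn hK hs v
    have e1 : ((a : K) + b * s) * ((c : K) + d * s) =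
        ((a * c - n * (b * d) : ℚ) : K) + ((a * d + b * c : ℚ) : K) * s := by
      push_cast
      linear_combination (b : K) * d * hs
    rw [e1, hval, hval, hval, add_mul, mul_add, mul_add, smul_mul_smul_comm, smul_mul_smul_comm,
      smul_mul_smul_comm, smul_mul_smul_comm, one_mul, one_mul, mul_one, hsqx, smul_smul]
    module
  set ι : K →ₐ[ℚ] ℍ[ℚ] := AlgHom.ofLinearMap L hone hmul with hι
  have hιL : ∀ z : K, ι.toRingHom z = L z := fun _ => rfl
  refine ⟨ι.toRingHom, ?_, ?_⟩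
  · rw [hιL]
    have := hval 0 1
    simpa using this
  · intro z
    obtain ⟨a, b, hab⟩ := MP_7c08ba_nt.exists_coords hn hK hs (z : K)
    have hz : IsIntegral ℤ ((a : K) + b * s) := hab ▸ z.isIntegral_coe
    obtain ⟨A, B', N, rfl, rfl, hN⟩ := int_coords hn hsq hK hs hz
    have hp := parity (n := n) (x := x) hx (by
      intro h4
      have h5 : 4 ∣ n := by exact_mod_cast h4
      have h6 := hsq 2 (by simpa using h5)
      simp at h6) hN
    refine ⟨A, B' * x 0, B' * x 1, B' * x 2, hp 0, hp 1, hp 2, ?_⟩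
    obtain ⟨g0, g1, g2, g3⟩ : (ptQ x).re = 0 ∧ (ptQ x).imI = x 0 ∧ (ptQ x).imJ = x 1 ∧
        (ptQ x).imK = x 2 := ⟨rfl, rfl, rfl, rfl⟩
    rw [hιL, hab, hval]
    apply Quaternion.ext
    · rw [Quaternion.re_add, Quaternion.re_smul, Quaternion.re_smul, g0, Quaternion.re_one,
        smul_eq_mul, smul_eq_mul]
      ring
    · rw [Quaternion.imI_add, Quaternion.imI_smul, Quaternion.imI_smul, g1, Quaternion.imI_one,
        smul_eq_mul, smul_eq_mul]
      push_cast
      ring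
    · rw [Quaternion.imJ_add, Quaternion.imJ_smul, Quaternion.imJ_smul, g2, Quaternion.imJ_one,
        smul_eq_mul, smul_eq_mul]
      push_cast
      ring
    · rw [Quaternion.imK_add, Quaternion.imK_smul, Quaternion.imK_smul, g3, Quaternion.imK_one,
        smul_eq_mul, smul_eq_mul]
      push_cast
      ring

end TOR

end Pool.Agent.Lib.MP_7c5fb9_nt
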