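import Pool.Agent.Lib.MP_7c5fb9_nt.TOR.Stmts

set_option autoImplicit false

/-!
# Toric periods (MP_7c5fb9_nt): the Hecke operators at 5 and 7

The integral quaternions of norm `5` (`7`) are the six (eight) given ones times the eight units on
the left.
-/

namespace Pool.Agent.Lib.MP_7c5fb9_nt

namespace TOR

open scoped Quaternion nonZeroDivisors

noncomputable section

namespace HeckeAux

/-- Quaternion from a tuple of integers. -/
def mk (t : ℤ × ℤ × ℤ × ℤ) : ℍ[ℤ] := ⟨t.1, t.2.1, t.2.2.1, t.2.2.2⟩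

theorem mk_re (t : ℤ × ℤ × ℤ × ℤ) : (mk t).re = t.1 := rfl

theorem mk_imI (t : ℤ × ℤ × ℤ × ℤ) : (mk t).imI = t.2.1 := rfl

theorem mk_imJ (t : ℤ × ℤ × ℤ × ℤ) : (mk t).imJ = t.2.2.1 := rfl

theorem mk_imK (t : ℤ × ℤ × ℤ × ℤ) : (mk t).imK = t.2.2.2 := rfl

theorem mk_inj : Function.Injective mk := by
  rintro ⟨a, b, c, d⟩ ⟨a', b', c', d'⟩ h
  have h1 := congrArg QuaternionAlgebra.re h
  have h2 := congrArg QuaternionAlgebra.imI h
  have h3 := congrArg QuaternionAlgebra.imJ h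
  have h4 := congrArg QuaternionAlgebra.imK h
  simp only [mk] at h1 h2 h3 h4
  subst h1 h2 h3 h4
  rfl

/-- The product of quaternions on tuples. -/
def mulT (s t : ℤ × ℤ × ℤ × ℤ) : ℤ × ℤ × ℤ × ℤ :=
  (s.1 * t.1 - s.2.1 * t.2.1 - s.2.2.1 * t.2.2.1 - s.2.2.2 * t.2.2.2,
   s.1 * t.2.1 + s.2.1 * t.1 + s.2.2.1 * t.2.2.2 - s.2.2.2 * t.2.2.1,
   s.1 * t.2.2.1 - s.2.1 * t.2.2.2 + s.2.2.1 * t.1 + s.2.2.2 * t.2.1,
   s.1 * t.2.2.2 + s.2.1 * t.2.2.1 - s.2.2.1 * t.2.1 + s.2.2.2 * t.1)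

theorem mk_mulT (s t : ℤ × ℤ × ℤ × ℤ) : mk (mulT s t) = mk s * mk t := by
  apply Quaternion.ext <;> simp only [Quaternion.re_mul, Quaternion.imI_mul, Quaternion.imJ_mul,
    Quaternion.imK_mul, mk_re, mk_imI, mk_imJ, mk_imK, mulT]

/-- The eight units. -/
def U : Finset (ℤ × ℤ × ℤ × ℤ) :=
  {(1, 0, 0, 0), (-1, 0, 0, 0), (0, 1, 0, 0), (0, -1, 0, 0), (0, 0, 1, 0), (0, 0, -1, 0),
    (0, 0, 0, 1), (0, 0, 0, -1)}

/-- Representatives of norm five (conjugates of the given ones). -/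
def B5 : Finset (ℤ × ℤ × ℤ × ℤ) :=
  {(1, -2, 0, 0), (1, 2, 0, 0), (1, 0, -2, 0), (1, 0, 2, 0), (1, 0, 0, -2), (1, 0, 0, 2)}

/-- Representatives of norm seven (conjugates of the given ones). -/
def B7 : Finset (ℤ × ℤ × ℤ × ℤ) :=
  {(2, -1, -1, -1), (2, -1, -1, 1), (2, -1, 1, -1), (2, -1, 1, 1), (2, 1, -1, -1), (2, 1, -1, 1),
    (2, 1, 1, -1), (2, 1, 1, 1)}

/-- The box. -/
def Bx : Finset (ℤ × ℤ × ℤ × ℤ) :=
  Finset.Icc (-2) 2 ×ˢ Finset.Icc (-2) 2 ×ˢ Finset.Icc (-2) 2 ×ˢ Finset.Icc (-2) 2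

/-- The tuples of norm `p` in the box. -/
def T (p : ℤ) : Finset (ℤ × ℤ × ℤ × ℤ) :=
  Bx.filter fun t => t.1 ^ 2 + t.2.1 ^ 2 + t.2.2.1 ^ 2 + t.2.2.2 ^ 2 = p

theorem T5_eq : T 5 = (U ×ˢ B5).image fun s => mulT s.1 s.2 := by
  decide +kernel

theorem T7_eq : T 7 = (U ×ˢ B7).image fun s => mulT s.1 s.2 := by
  decide +kernel

theorem inj5 : ∀ s ∈ U ×ˢ B5, ∀ t ∈ U ×ˢ B5, mulT s.1 s.2 = mulT t.1 t.2 → s = t := by
  decide +kernel

theorem inj7 : ∀ s ∈ U ×ˢ B7, ∀ t ∈ U ×ˢ B7, mulT s.1 s.2 = mulT t.1 t.2 → s = t := by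
  decide +kernel

theorem bound {a s : ℤ} (h : a ^ 2 ≤ s) (hs : s ≤ 7) : -2 ≤ a ∧ a ≤ 2 := by
  constructor <;> nlinarith

theorem set_eq (p : ℕ) (hp : p ≤ 7) :
    {α : ℍ[ℤ] | α.re ^ 2 + α.imI ^ 2 + α.imJ ^ 2 + α.imK ^ 2 = (p : ℤ)} =
      mk '' (T p : Set (ℤ × ℤ × ℤ × ℤ)) := by
  ext α
  constructor
  · intro h
    have h' : α.re ^ 2 + α.imI ^ 2 + α.imJ ^ 2 + α.imK ^ 2 = (p : ℤ) := h
    have hp' : (p : ℤ) ≤ 7 := by exact_mod_cast hp
    refine ⟨(α.re, α.imI, α.imJ, α.imK), ?_, rfl⟩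
    have h1 : -2 ≤ α.re ∧ α.re ≤ 2 := bound (s := (p : ℤ)) (by nlinarith [sq_nonneg α.imI, sq_nonneg α.imJ, sq_nonneg α.imK]) hp'
    have h2 : -2 ≤ α.imI ∧ α.imI ≤ 2 := bound (s := (p : ℤ)) (by nlinarith [sq_nonneg α.re, sq_nonneg α.imJ, sq_nonneg α.imK]) hp'
    have h3 : -2 ≤ α.imJ ∧ α.imJ ≤ 2 := bound (s := (p : ℤ)) (by nlinarith [sq_nonneg α.re, sq_nonneg α.imI, sq_nonneg α.imK]) hp'
    have h4 : -2 ≤ α.imK ∧ α.imK ≤ 2 := bound (s := (p : ℤ)) (by nlinarith [sq_nonneg α.re, sq_nonneg α.imI, sq_nonneg α.imJ]) hp'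
    rw [Finset.mem_coe, T, Finset.mem_filter]
    refine ⟨?_, h'⟩
    simp only [Bx, Finset.mem_product, Finset.mem_Icc]
    exact ⟨h1, h2, h3, h4⟩
  · rintro ⟨t, ht, rfl⟩
    rw [Finset.mem_coe, T, Finset.mem_filter] at ht
    exact ht.2

theorem hecke_eq (p : ℕ) (hp : p ≤ 7) (Φ : (Fin 3 → ℤ) → ℂ) (x : Fin 3 → ℤ) :
    hecke p Φ x = ∑ t ∈ T p, Φ (vec (mk t * pt x * star (mk t))) := by
  rw [hecke, set_eq p hp, finsum_mem_image mk_inj.injOn, finsum_mem_coe_finset]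

theorem unit_inv {Φ : (Fin 3 → ℤ) → ℂ}
    (hΦ : ∀ (σ : Equiv.Perm (Fin 3)) (ε : Fin 3 → ℤˣ) (x : Fin 3 → ℤ),
      Φ (fun i => (ε i : ℤ) * x (σ i)) = Φ x) (u : ℤ × ℤ × ℤ × ℤ) (hu : u ∈ U) (q : ℍ[ℤ]) :
    Φ (vec (mk u * q * star (mk u))) = Φ (vec q) := by
  have key : ∀ e : Fin 3 → ℤˣ, vec (mk u * q * star (mk u)) = (fun i => (e i : ℤ) * vec q i) →
      Φ (vec (mk u * q * star (mk u))) = Φ (vec q) := by
    intro e he
    rw [he]
    exact hΦ 1 e (vec q)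
  simp only [U, Finset.mem_insert, Finset.mem_singleton] at hu
  rcases hu with rfl | rfl | rfl | rfl | rfl | rfl | rfl | rfl
  · refine key ![1, 1, 1] ?_
    funext i
    fin_cases i <;> simp [vec, mk_re, mk_imI, mk_imJ, mk_imK]
  · refine key ![1, 1, 1] ?_
    funext i
    fin_cases i <;> simp [vec, mk_re, mk_imI, mk_imJ, mk_imK]
  · refine key ![1, -1, -1] ?_
    funext i
    fin_cases i <;> simp [vec, mk_re, mk_imI, mk_imJ, mk_imK]
  · refine key ![1, -1, -1] ?_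
    funext i
    fin_cases i <;> simp [vec, mk_re, mk_imI, mk_imJ, mk_imK]
  · refine key ![-1, 1, -1] ?_
    funext i
    fin_cases i <;> simp [vec, mk_re, mk_imI, mk_imJ, mk_imK]
  · refine key ![-1, 1, -1] ?_
    funext i
    fin_cases i <;> simp [vec, mk_re, mk_imI, mk_imJ, mk_imK]
  · refine key ![-1, -1, 1] ?_
    funext i
    fin_cases i <;> simp [vec, mk_re, mk_imI, mk_imJ, mk_imK]
  · refine key ![-1, -1, 1] ?_
    funext i
    fin_cases i <;> simp [vec, mk_re, mk_imI, mk_imJ, mk_imK]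

theorem sum_eq {Φ : (Fin 3 → ℤ) → ℂ}
    (hΦ : ∀ (σ : Equiv.Perm (Fin 3)) (ε : Fin 3 → ℤˣ) (x : Fin 3 → ℤ),
      Φ (fun i => (ε i : ℤ) * x (σ i)) = Φ x) (x : Fin 3 → ℤ) (S B : Finset (ℤ × ℤ × ℤ × ℤ))
    (hS : S = (U ×ˢ B).image fun s => mulT s.1 s.2)
    (hinj : ∀ s ∈ U ×ˢ B, ∀ t ∈ U ×ˢ B, mulT s.1 s.2 = mulT t.1 t.2 → s = t) :
    ∑ t ∈ S, Φ (vec (mk t * pt x * star (mk t))) =
      8 * ∑ b ∈ B, Φ (vec (mk b * pt x * star (mk b))) := by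
  have hU : U.card = 8 := by decide
  rw [hS, Finset.sum_image (fun s hs t ht h => hinj s hs t ht h), Finset.sum_product_right,
    Finset.mul_sum]
  refine Finset.sum_congr rfl fun b _ => ?_
  have h : ∀ u ∈ U, Φ (vec (mk (mulT u b) * pt x * star (mk (mulT u b)))) =
      Φ (vec (mk b * pt x * star (mk b))) := by
    intro u hu
    rw [mk_mulT, star_mul]
    have e : mk u * mk b * pt x * (star (mk b) * star (mk u)) =
        mk u * (mk b * pt x * star (mk b)) * star (mk u) := by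
      simp only [mul_assoc]
    rw [e]
    exact unit_inv hΦ u hu _
  rw [Finset.sum_congr rfl h, Finset.sum_const, hU, nsmul_eq_mul]
  norm_num

theorem star_mk (a b c d : ℤ) : star (mk (a, b, c, d)) = mk (a, -b, -c, -d) := by
  apply Quaternion.ext
  · rw [Quaternion.re_star, mk_re, mk_re]
  · rw [Quaternion.imI_star, mk_imI, mk_imI]
  · rw [Quaternion.imJ_star, mk_imJ, mk_imJ]
  · rw [Quaternion.imK_star, mk_imK, mk_imK]

theorem term_eq (Φ : (Fin 3 → ℤ) → ℂ) (x : Fin 3 → ℤ) (a b c d : ℤ) :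
    Φ (vec (star ⟨a, b, c, d⟩ * pt x * ⟨a, b, c, d⟩)) =
      Φ (vec (mk (a, -b, -c, -d) * pt x * star (mk (a, -b, -c, -d)))) := by
  have h : Φ (vec (star (mk (a, b, c, d)) * pt x * mk (a, b, c, d))) =
      Φ (vec (mk (a, -b, -c, -d) * pt x * star (mk (a, -b, -c, -d)))) := by
    rw [star_mk, star_mk, neg_neg, neg_neg, neg_neg]
  exact h

theorem stH : StHecke := by
  intro Φ hΦ x
  constructor
  · refine (hecke_eq 5 (by norm_num) Φ x).trans ?_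
    rw [Nat.cast_ofNat, sum_eq hΦ x (T 5) B5 T5_eq inj5]
    refine congrArg (fun z : ℂ => 8 * z) ?_
    simp only [B5]
    rw [Finset.sum_insert (by decide), Finset.sum_insert (by decide), Finset.sum_insert (by decide),
      Finset.sum_insert (by decide), Finset.sum_insert (by decide), Finset.sum_singleton]
    have h := term_eq Φ x
    have h1 := h 1 2 0 0
    have h2 := h 1 (-2) 0 0
    have h3 := h 1 0 2 0
    have h4 := h 1 0 (-2) 0
    have h5 := h 1 0 0 2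
    have h6 := h 1 0 0 (-2)
    simp only [neg_neg, neg_zero] at h1 h2 h3 h4 h5 h6
    rw [← h1, ← h2, ← h3, ← h4, ← h5, ← h6]
    ring
  · refine (hecke_eq 7 (by norm_num) Φ x).trans ?_
    rw [Nat.cast_ofNat, sum_eq hΦ x (T 7) B7 T7_eq inj7]
    refine congrArg (fun z : ℂ => 8 * z) ?_
    simp only [B7]
    rw [Finset.sum_insert (by decide), Finset.sum_insert (by decide), Finset.sum_insert (by decide),
      Finset.sum_insert (by decide), Finset.sum_insert (by decide), Finset.sum_insert (by decide),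
      Finset.sum_insert (by decide), Finset.sum_singleton]
    have h := term_eq Φ x
    have h1 := h 2 1 1 1
    have h2 := h 2 1 1 (-1)
    have h3 := h 2 1 (-1) 1
    have h4 := h 2 1 (-1) (-1)
    have h5 := h 2 (-1) 1 1
    have h6 := h 2 (-1) 1 (-1)
    have h7 := h 2 (-1) (-1) 1
    have h8 := h 2 (-1) (-1) (-1)
    simp only [neg_neg] at h1 h2 h3 h4 h5 h6 h7 h8
    rw [← h1, ← h2, ← h3, ← h4, ← h5, ← h6, ← h7, ← h8]
    ring

end HeckeAux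

theorem stHecke : StHecke := HeckeAux.stH

end

end TOR

end Pool.Agent.Lib.MP_7c5fb9_nt
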