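import Pool.Agent.Lib.MP_7c5fb9_nt.TOR.Stmts

set_option autoImplicit false

/-!
# Right ideals of the Hurwitz order are principal
-/

namespace Pool.Agent.Lib.MP_7c5fb9_nt

namespace TOR

open scoped Quaternion nonZeroDivisors

namespace HurAux

lemma hur_mul {p q : ℍ[ℚ]} (hp : IsHur p) (hq : IsHur q) : IsHur (p * q) := by
  obtain ⟨a, b, c, d, ⟨b₁, hb⟩, ⟨c₁, hc⟩, ⟨d₁, hd⟩, rfl⟩ := hp
  obtain ⟨a', b', c', d', ⟨b₂, hb'⟩, ⟨c₂, hc'⟩, ⟨d₂, hd'⟩, rfl⟩ := hq
  obtain rfl : b = a - 2 * b₁ := by linarith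
  obtain rfl : c = a - 2 * c₁ := by linarith
  obtain rfl : d = a - 2 * d₁ := by linarith
  obtain rfl : b' = a' - 2 * b₂ := by linarith
  obtain rfl : c' = a' - 2 * c₂ := by linarith
  obtain rfl : d' = a' - 2 * d₂ := by linarith
  refine ⟨-a * a' + a * (b₂ + c₂ + d₂) + a' * (b₁ + c₁ + d₁)
      - 2 * (b₁ * b₂ + c₁ * c₂ + d₁ * d₂),
    a * a' - a * b₂ - a' * b₁ - a * d₂ - a' * c₁ + a * c₂ + a' * d₁
      + 2 * (c₁ * d₂ - d₁ * c₂),
    a * a' - a * c₂ - a' * c₁ - a * b₂ - a' * d₁ + a * d₂ + a' * b₁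
      + 2 * (d₁ * b₂ - b₁ * d₂),
    a * a' - a * d₂ - a' * d₁ - a * c₂ - a' * b₁ + a * b₂ + a' * c₁
      + 2 * (b₁ * c₂ - c₁ * b₂), ?_, ?_, ?_, ?_⟩
  · exact ⟨-(a * a') + a * (b₂ + d₂) + a' * (b₁ + c₁) - (b₁ * b₂ + c₁ * c₂ + d₁ * d₂)
      - (c₁ * d₂ - d₁ * c₂), by ring⟩
  · exact ⟨-(a * a') + a * (c₂ + b₂) + a' * (c₁ + d₁) - (b₁ * b₂ + c₁ * c₂ + d₁ * d₂)
      - (d₁ * b₂ - b₁ * d₂), by ring⟩
  · exact ⟨-(a * a') + a * (d₂ + c₂) + a' * (d₁ + b₁) - (b₁ * b₂ + c₁ * c₂ + d₁ * d₂)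
      - (b₁ * c₂ - c₁ * b₂), by ring⟩
  · ext
    · rw [Quaternion.re_mul]
      push_cast
      ring
    · rw [Quaternion.imI_mul]
      push_cast
      ring
    · rw [Quaternion.imJ_mul]
      push_cast
      ring
    · rw [Quaternion.imK_mul]
      push_cast
      ring

lemma hur_add {p q : ℍ[ℚ]} (hp : IsHur p) (hq : IsHur q) : IsHur (p + q) := by
  obtain ⟨a, b, c, d, hb, hc, hd, rfl⟩ := hp
  obtain ⟨a', b', c', d', hb', hc', hd', rfl⟩ := hq
  refine ⟨a + a', b + b', c + c', d + d', ?_, ?_, ?_, ?_⟩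
  · have := dvd_add hb hb'
    rwa [show a - b + (a' - b') = a + a' - (b + b') by ring] at this
  · have := dvd_add hc hc'
    rwa [show a - c + (a' - c') = a + a' - (c + c') by ring] at this
  · have := dvd_add hd hd'
    rwa [show a - d + (a' - d') = a + a' - (d + d') by ring] at this
  · ext
    · rw [Quaternion.re_add]
      push_cast
      ring
    · rw [Quaternion.imI_add]
      push_cast
      ring
    · rw [Quaternion.imJ_add]
      push_cast
      ring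
    · rw [Quaternion.imK_add]
      push_cast
      ring

lemma hur_neg {p : ℍ[ℚ]} (hp : IsHur p) : IsHur (-p) := by
  obtain ⟨a, b, c, d, hb, hc, hd, rfl⟩ := hp
  refine ⟨-a, -b, -c, -d, ?_, ?_, ?_, ?_⟩
  · have := dvd_neg.mpr hb
    rwa [show -(a - b) = -a - -b by ring] at this
  · have := dvd_neg.mpr hc
    rwa [show -(a - c) = -a - -c by ring] at this
  · have := dvd_neg.mpr hd
    rwa [show -(a - d) = -a - -d by ring] at this
  · ext
    · rw [Quaternion.re_neg]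
      push_cast
      ring
    · rw [Quaternion.imI_neg]
      push_cast
      ring
    · rw [Quaternion.imJ_neg]
      push_cast
      ring
    · rw [Quaternion.imK_neg]
      push_cast
      ring

/-- Four times the norm of a Hurwitz quaternion is a natural number. -/
lemma hur_norm {p : ℍ[ℚ]} (hp : IsHur p) : ∃ n : ℕ, 4 * Quaternion.normSq p = n := by
  obtain ⟨a, b, c, d, hb, hc, hd, rfl⟩ := hp
  refine ⟨(a ^ 2 + b ^ 2 + c ^ 2 + d ^ 2).toNat, ?_⟩
  have h : (0 : ℤ) ≤ a ^ 2 + b ^ 2 + c ^ 2 + d ^ 2 := by positivity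
  have h2 : (((a ^ 2 + b ^ 2 + c ^ 2 + d ^ 2).toNat : ℤ) : ℚ) =
      ((a ^ 2 + b ^ 2 + c ^ 2 + d ^ 2 : ℤ) : ℚ) := by rw [Int.toNat_of_nonneg h]
  rw [Int.cast_natCast] at h2
  rw [h2, Quaternion.normSq_def']
  push_cast
  ring

lemma half_odd {x : ℚ} (h : (x - round x) ^ 2 = 1 / 4) : ∃ k : ℤ, x = (2 * k + 1 : ℤ) / 2 := by
  have h1 : (x - round x - 1 / 2) * (x - round x + 1 / 2) = 0 := by linear_combination h
  rcases mul_eq_zero.mp h1 with h2 | h2
  · refine ⟨round x, ?_⟩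
    push_cast
    linear_combination h2
  · refine ⟨round x - 1, ?_⟩
    push_cast
    linear_combination h2

lemma sq_le (x : ℚ) : (x - round x) ^ 2 ≤ 1 / 4 := by
  have h := abs_sub_round x
  have h2 : (x - round x) ^ 2 = |x - round x| ^ 2 := (sq_abs _).symm
  rw [h2]
  have h0 := abs_nonneg (x - round x)
  nlinarith

/-- The Hurwitz order is norm Euclidean. -/
lemma near (q : ℍ[ℚ]) : ∃ o : ℍ[ℚ], IsHur o ∧ Quaternion.normSq (q - o) < 1 := by
  by_cases h : Quaternion.normSq (q - ⟨round q.re, round q.imI, round q.imJ, round q.imK⟩) < 1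
  · refine ⟨_, ⟨2 * round q.re, 2 * round q.imI, 2 * round q.imJ, 2 * round q.imK, ?_, ?_, ?_, ?_⟩,
      h⟩
    · exact ⟨round q.re - round q.imI, by ring⟩
    · exact ⟨round q.re - round q.imJ, by ring⟩
    · exact ⟨round q.re - round q.imK, by ring⟩
    · ext <;> push_cast <;> ring
  · rw [not_lt, Quaternion.normSq_def', Quaternion.re_sub, Quaternion.imI_sub, Quaternion.imJ_sub,
      Quaternion.imK_sub] at h
    have h1 := sq_le q.re
    have h2 := sq_le q.imI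
    have h3 := sq_le q.imJ
    have h4 := sq_le q.imK
    obtain ⟨a, ha⟩ := half_odd (x := q.re) (by linarith)
    obtain ⟨b, hb⟩ := half_odd (x := q.imI) (by linarith)
    obtain ⟨c, hc⟩ := half_odd (x := q.imJ) (by linarith)
    obtain ⟨d, hd⟩ := half_odd (x := q.imK) (by linarith)
    refine ⟨q, ⟨2 * a + 1, 2 * b + 1, 2 * c + 1, 2 * d + 1, ?_, ?_, ?_, ?_⟩, ?_⟩
    · exact ⟨a - b, by ring⟩
    · exact ⟨a - c, by ring⟩
    · exact ⟨a - d, by ring⟩
    · ext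
      · exact ha
      · exact hb
      · exact hc
      · exact hd
    · rw [sub_self, map_zero]
      exact one_pos

end HurAux

open HurAux in
/-- (Hur) -/
theorem stHur : StHur := by
  refine ⟨fun p q hp hq => ⟨hur_mul hp hq, hur_add hp hq, hur_neg hp⟩, ?_⟩
  intro A hA hH hI
  classical
  have hex : ∃ n : ℕ, ∃ q ∈ A, q ≠ 0 ∧ 4 * Quaternion.normSq q = n := by
    obtain ⟨q, hq, hq0⟩ := A.bot_or_exists_ne_zero.resolve_left hA
    obtain ⟨n, hn⟩ := hur_norm (hH q hq)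
    exact ⟨n, q, hq, hq0, hn⟩
  obtain ⟨γ, hγ, hγ0, hn⟩ := Nat.find_spec hex
  refine ⟨γ, hγ0, fun q => ⟨fun hq => ?_, ?_⟩⟩
  · obtain ⟨o, ho, hlt⟩ := near (γ⁻¹ * q)
    refine ⟨o, ho, ?_⟩
    have hr : q - γ * o ∈ A := A.sub_mem hq (hI γ hγ o ho)
    by_contra hne
    have hr0 : q - γ * o ≠ 0 := sub_ne_zero.mpr hne
    obtain ⟨n, hn'⟩ := hur_norm (hH _ hr)
    have hle := Nat.find_min' hex ⟨q - γ * o, hr, hr0, hn'⟩
    have h1 : q - γ * o = γ * (γ⁻¹ * q - o) := by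
      rw [mul_sub, ← mul_assoc, mul_inv_cancel₀ hγ0, one_mul]
    have h2 : Quaternion.normSq (q - γ * o) =
        Quaternion.normSq γ * Quaternion.normSq (γ⁻¹ * q - o) := by
      rw [h1, map_mul]
    have h3 : 0 < Quaternion.normSq γ := by
      have h4 := Quaternion.normSq_nonneg (a := γ)
      have h5 : Quaternion.normSq γ ≠ 0 := by rwa [Ne, Quaternion.normSq_eq_zero]
      exact lt_of_le_of_ne h4 (Ne.symm h5)
    have h4 : Quaternion.normSq (q - γ * o) < Quaternion.normSq γ := by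
      rw [h2]
      exact mul_lt_of_lt_one_right h3 hlt
    have h5 : (Nat.find hex : ℚ) ≤ n := by exact_mod_cast hle
    rw [← hn, ← hn'] at h5
    linarith
  · rintro ⟨o, ho, rfl⟩
    exact hI γ hγ o ho

end TOR

end Pool.Agent.Lib.MP_7c5fb9_nt
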