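import Pool.Agent.Lib.MP_7c5fb9_nt.TOR.Defs

set_option autoImplicit false

/-!
# Statements of the modules (project TOR)

One module = one file `TOR/<Name>.lean` proving `theorem st<Name> : St<Name>` with the listed earlier
statements as hypotheses. Never change this file.
-/

namespace Pool.Agent.Lib.MP_7c5fb9_nt

namespace TOR

open scoped Quaternion nonZeroDivisors

noncomputable section

/-- (KL) A non-zero space of functions modulo `3`, invariant under the cube group and stable under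
`T_5` and `T_7`, contains the characteristic function of the sphere. -/
def StKL : Prop :=
  ∀ (m : ℕ) (G : Submodule (ZMod 3) (ℍ[ℤ] → ZMod 3)), (∀ F ∈ G, Lev m F ∧ Cube F) →
    (∀ F ∈ G, T5 F ∈ G) → (∀ F ∈ G, T7 F ∈ G) → G ≠ ⊥ → one3 ∈ G

/-- (Hecke) the Hecke operators `T_5` and `T_7` on functions invariant under signed permutations:
the quaternions of norm `p` are the `p + 1` given ones times the eight units `±1, ±i, ±j, ±k` on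
the left. -/
def StHecke : Prop :=
  ∀ Φ : (Fin 3 → ℤ) → ℂ, (∀ (σ : Equiv.Perm (Fin 3)) (ε : Fin 3 → ℤˣ) (x : Fin 3 → ℤ),
      Φ (fun i => (ε i : ℤ) * x (σ i)) = Φ x) → ∀ x : Fin 3 → ℤ,
    hecke 5 Φ x = 8 * (
      Φ (vec (star ⟨1, 2, 0, 0⟩ * pt x * ⟨1, 2, 0, 0⟩)) +
      Φ (vec (star ⟨1, -2, 0, 0⟩ * pt x * ⟨1, -2, 0, 0⟩)) +
      Φ (vec (star ⟨1, 0, 2, 0⟩ * pt x * ⟨1, 0, 2, 0⟩)) +
      Φ (vec (star ⟨1, 0, -2, 0⟩ * pt x * ⟨1, 0, -2, 0⟩)) +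
      Φ (vec (star ⟨1, 0, 0, 2⟩ * pt x * ⟨1, 0, 0, 2⟩)) +
      Φ (vec (star ⟨1, 0, 0, -2⟩ * pt x * ⟨1, 0, 0, -2⟩))) ∧
    hecke 7 Φ x = 8 * (
      Φ (vec (star ⟨2, 1, 1, 1⟩ * pt x * ⟨2, 1, 1, 1⟩)) +
      Φ (vec (star ⟨2, 1, 1, -1⟩ * pt x * ⟨2, 1, 1, -1⟩)) +
      Φ (vec (star ⟨2, 1, -1, 1⟩ * pt x * ⟨2, 1, -1, 1⟩)) +
      Φ (vec (star ⟨2, 1, -1, -1⟩ * pt x * ⟨2, 1, -1, -1⟩)) +
      Φ (vec (star ⟨2, -1, 1, 1⟩ * pt x * ⟨2, -1, 1, 1⟩)) +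
      Φ (vec (star ⟨2, -1, 1, -1⟩ * pt x * ⟨2, -1, 1, -1⟩)) +
      Φ (vec (star ⟨2, -1, -1, 1⟩ * pt x * ⟨2, -1, -1, 1⟩)) +
      Φ (vec (star ⟨2, -1, -1, -1⟩ * pt x * ⟨2, -1, -1, -1⟩)))

/-- (Fin) the values of a form generate a finitely generated group, and the form is `3`-adically
continuous with respect to it. -/
def StFin : Prop :=
  ∀ (ℓ m : ℕ) (Φ : (Fin 3 → ℤ) → ℂ), Form ℓ m Φ →
    (AddSubgroup.closure (Set.image Φ {x | nrm x % 3 = 1})).FG ∧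
    ∃ k : ℕ, ∀ x y : Fin 3 → ℤ, nrm x % 3 = 1 → nrm y % 3 = 1 → (∀ i, (3 ^ k : ℤ) ∣ x i - y i) →
      ∃ z ∈ AddSubgroup.closure (Set.image Φ {x | nrm x % 3 = 1}), Φ x - Φ y = 3 * z

/-- (Red) reduction modulo `3` of an eigenform (uses `StKL`, `StHecke`, `StFin`). -/
def StRed : Prop :=
  ∀ (ℓ m : ℕ) (Φ : (Fin 3 → ℤ) → ℂ), Form ℓ m Φ → Even ℓ → Eig 5 Φ → Eig 7 Φ →
    (∃ x, nrm x % 3 = 1 ∧ Φ x ≠ 0) →
    ∃ (N : AddSubgroup ℂ) (θ : N →+ ZMod 3), ∀ x : Fin 3 → ℤ, nrm x % 3 = 1 →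
      ∃ h : Φ x ∈ N, θ ⟨Φ x, h⟩ = 1

/-- (Hur) right ideals of the Hurwitz order are principal. -/
def StHur : Prop :=
  (∀ p q : ℍ[ℚ], IsHur p → IsHur q → IsHur (p * q) ∧ IsHur (p + q) ∧ IsHur (-p)) ∧
  ∀ A : AddSubgroup ℍ[ℚ], A ≠ ⊥ → (∀ q ∈ A, IsHur q) → (∀ q ∈ A, ∀ o, IsHur o → q * o ∈ A) →
    ∃ γ : ℍ[ℚ], γ ≠ 0 ∧ ∀ q : ℍ[ℚ], q ∈ A ↔ ∃ o : ℍ[ℚ], IsHur o ∧ q = γ * o

/-- (Toric) existence and norm of toric points (uses `StHur`). -/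
def StToric : Prop :=
  ∀ (K : Type) [Field K] [NumberField K] (s : K) (n : ℕ), 0 < n → s ^ 2 = -(n : K) →
    ∀ ι : K →+* ℍ[ℚ], Optimal ι →
      (∃ y : ClassGroup (NumberField.RingOfIntegers K) → Fin 3 → ℤ, ∀ c, ToricPt ι s c (y c)) ∧
      ∀ (c : ClassGroup (NumberField.RingOfIntegers K)) (y : Fin 3 → ℤ), ToricPt ι s c y →
        nrm y = n

/-- (Emb) every representation of `n` as a sum of three squares gives an optimal embedding. -/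
def StEmb : Prop :=
  ∀ (K : Type) [Field K] [NumberField K] (s : K) (n : ℕ), Module.finrank ℚ K = 2 →
    s ^ 2 = -(n : K) → Squarefree n → n % 8 ≠ 7 → ∀ x : Fin 3 → ℤ, nrm x = n →
      ∃ ι : K →+* ℍ[ℚ], ι s = ptQ x ∧ Optimal ι

/-- (Tern) reduction of ternary forms of determinant one: if `f` is given by a symmetric integral
matrix, positive definite, of determinant `1`, then every value of `f` is a sum of three squares. -/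
def StTern : Prop :=
  ∀ a b c d e f : ℤ, 0 < a → 0 < a * d - b ^ 2 →
    a * (d * f - e ^ 2) - b * (b * f - e * c) + c * (b * e - d * c) = 1 →
    ∀ x y z : ℤ, ∃ v : Fin 3 → ℤ,
      nrm v = a * x ^ 2 + d * y ^ 2 + f * z ^ 2 + 2 * b * x * y + 2 * c * x * z + 2 * e * y * z

/-- (Three) Gauss: squarefree numbers not `7` modulo `8` are sums of three squares
(uses `StTern`). -/
def StThree : Prop :=
  ∀ n : ℕ, Squarefree n → n % 8 ≠ 7 → ∃ x : Fin 3 → ℤ, nrm x = n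

/-- (DH) at least half of the imaginary quadratic fields with prescribed behaviour at `2`, in which
`3` is inert, have class number prime to `3`. -/
def StDH : Prop :=
  ∀ r ∈ ({1, 2, 3, 5, 6, 10, 14} : Finset ℕ),
    (∃ c : ℝ, 0 < c ∧ ∃ X₀ : ℕ, ∀ X : ℕ, X₀ ≤ X →
      c * X ≤ ({n : ℕ | n ≤ X ∧ Cls r n ∧ n % 3 = 1}.ncard : ℝ)) ∧
    ∀ ε : ℝ, 0 < ε → ∃ X₀ : ℕ, ∀ X : ℕ, X₀ ≤ X →
      (1 / 2 - ε) * ({n : ℕ | n ≤ X ∧ Cls r n ∧ n % 3 = 1}.ncard : ℝ) ≤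
        ({n : ℕ | n ≤ X ∧ Cls r n ∧ n % 3 = 1 ∧
          ∀ (K : Type) [Field K] [NumberField K] (s : K), Module.finrank ℚ K = 2 →
            s ^ 2 = -(n : K) →
              ¬ 3 ∣ Nat.card (ClassGroup (NumberField.RingOfIntegers K))}.ncard : ℝ)

/-- The main theorem, first part: a criterion. -/
def StCrit : Prop :=
  ∀ (ℓ m : ℕ) (Φ : (Fin 3 → ℤ) → ℂ), Form ℓ m Φ → Even ℓ → Eig 5 Φ → Eig 7 Φ →
    (∃ x, nrm x % 3 = 1 ∧ Φ x ≠ 0) →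
    ∀ n : ℕ, Squarefree n → n % 8 ≠ 7 → n % 3 = 1 →
      ∀ (K : Type) [Field K] [NumberField K] (s : K), Module.finrank ℚ K = 2 →
        s ^ 2 = -(n : K) → ¬ 3 ∣ Nat.card (ClassGroup (NumberField.RingOfIntegers K)) →
          NonVanK Φ K s

/-- The main theorem, second part: positive proportion for each of the seven behaviours at `2`. -/
def StMain : Prop :=
  ∀ (ℓ m : ℕ) (Φ : (Fin 3 → ℤ) → ℂ), Form ℓ m Φ → Even ℓ → Eig 5 Φ → Eig 7 Φ →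
    (∃ x, nrm x % 3 = 1 ∧ Φ x ≠ 0) →
    ∀ r ∈ ({1, 2, 3, 5, 6, 10, 14} : Finset ℕ),
      (∃ c : ℝ, 0 < c ∧ ∃ X₀ : ℕ, ∀ X : ℕ, X₀ ≤ X →
        c * X ≤ ({n : ℕ | n ≤ X ∧ Cls r n ∧ n % 3 = 1 ∧ NonVan Φ n}.ncard : ℝ)) ∧
      ∀ ε : ℝ, 0 < ε → ∃ X₀ : ℕ, ∀ X : ℕ, X₀ ≤ X →
        (1 / 2 - ε) * ({n : ℕ | n ≤ X ∧ Cls r n ∧ n % 3 = 1}.ncard : ℝ) ≤
          ({n : ℕ | n ≤ X ∧ Cls r n ∧ n % 3 = 1 ∧ NonVan Φ n}.ncard : ℝ)

end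

end TOR

end Pool.Agent.Lib.MP_7c5fb9_nt
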