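import Pool.Agent.Lib.MP_7c5fb9_nt.TOR.Stmts

set_option autoImplicit false

/-!
# Reduction modulo `3` of an eigenform (project TOR)
-/

namespace Pool.Agent.Lib.MP_7c5fb9_nt

namespace TOR

open scoped Quaternion nonZeroDivisors

noncomputable section

namespace RedAux

theorem vec_pt (x : Fin 3 → ℤ) : vec (pt x) = x := by
  funext i
  fin_cases i <;> simp [vec, pt]

theorem nrm_vec (x : ℍ[ℤ]) : nrm (vec x) = x.imI ^ 2 + x.imJ ^ 2 + x.imK ^ 2 := by
  simp [nrm, vec]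

theorem vec_conj (q x : ℍ[ℤ]) : vec (star q * x * q) = vec (star q * pt (vec x) * q) := by
  funext i
  fin_cases i <;> simp [vec, pt] <;> ring

theorem nrm_conj (q x : ℍ[ℤ]) : nrm (vec (star q * x * q)) =
    (q.re ^ 2 + q.imI ^ 2 + q.imJ ^ 2 + q.imK ^ 2) ^ 2 * nrm (vec x) := by
  rw [nrm_vec, nrm_vec]
  simp
  ring

theorem nrm_sq (n : ℤ) (hn : n % 3 = 1 ∨ n % 3 = 2) (a : ℤ) : (n ^ 2 * a) % 3 = a % 3 := by
  have : n ^ 2 % 3 = 1 := by
    rcases hn with h | h <;> rw [pow_two, Int.mul_emod, h] <;> rfl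
  rw [Int.mul_emod, this, one_mul, Int.emod_emod_of_dvd _ (dvd_refl _)]

/-- The function on quaternions attached to a homomorphism. -/
def FF (Φ : (Fin 3 → ℤ) → ℂ) (N : AddSubgroup ℂ) (hN : ∀ x, nrm x % 3 = 1 → Φ x ∈ N)
    (θ : N →+ ZMod 3) (x : ℍ[ℤ]) : ZMod 3 :=
  if h : nrm (vec x) % 3 = 1 then θ ⟨Φ (vec x), hN _ h⟩ else 0

variable {Φ : (Fin 3 → ℤ) → ℂ} {N : AddSubgroup ℂ} {hN : ∀ x, nrm x % 3 = 1 → Φ x ∈ N}

theorem FF_of (θ : N →+ ZMod 3) {x : ℍ[ℤ]} (h : nrm (vec x) % 3 = 1) :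
    FF Φ N hN θ x = θ ⟨Φ (vec x), hN _ h⟩ := dif_pos h

theorem FF_of_not (θ : N →+ ZMod 3) {x : ℍ[ℤ]} (h : ¬ nrm (vec x) % 3 = 1) :
    FF Φ N hN θ x = 0 := dif_neg h

theorem FF_congr (θ : N →+ ZMod 3) {x y : ℍ[ℤ]} (h : nrm (vec x) % 3 = nrm (vec y) % 3)
    (h' : ∀ (hx : nrm (vec x) % 3 = 1) (hy : nrm (vec y) % 3 = 1),
      θ ⟨Φ (vec x), hN _ hx⟩ = θ ⟨Φ (vec y), hN _ hy⟩) :
    FF Φ N hN θ x = FF Φ N hN θ y := by
  by_cases hx : nrm (vec x) % 3 = 1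
  · have hy : nrm (vec y) % 3 = 1 := h ▸ hx
    rw [FF_of θ hx, FF_of θ hy]
    exact h' hx hy
  · have hy : ¬ nrm (vec y) % 3 = 1 := h ▸ hx
    rw [FF_of_not θ hx, FF_of_not θ hy]

/-- the homomorphisms as a submodule of functions -/
def GG (Φ : (Fin 3 → ℤ) → ℂ) (N : AddSubgroup ℂ) (hN : ∀ x, nrm x % 3 = 1 → Φ x ∈ N) :
    Submodule (ZMod 3) (ℍ[ℤ] → ZMod 3) where
  carrier := {F | ∃ θ : N →+ ZMod 3, F = FF Φ N hN θ}
  add_mem' := by
    rintro _ _ ⟨θ, rfl⟩ ⟨θ', rfl⟩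
    refine ⟨θ + θ', funext fun x => ?_⟩
    rw [Pi.add_apply]
    by_cases hx : nrm (vec x) % 3 = 1
    · rw [FF_of _ hx, FF_of _ hx, FF_of _ hx]; rfl
    · rw [FF_of_not _ hx, FF_of_not _ hx, FF_of_not _ hx, add_zero]
  zero_mem' := by
    refine ⟨0, funext fun x => ?_⟩
    by_cases hx : nrm (vec x) % 3 = 1
    · rw [FF_of _ hx]; rfl
    · rw [FF_of_not _ hx]; rfl
  smul_mem' := by
    rintro c _ ⟨θ, rfl⟩
    refine ⟨(AddMonoidHom.mulLeft c).comp θ, funext fun x => ?_⟩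
    rw [Pi.smul_apply]
    by_cases hx : nrm (vec x) % 3 = 1
    · rw [FF_of _ hx, FF_of _ hx]; rfl
    · rw [FF_of_not _ hx, FF_of_not _ hx, smul_zero]

theorem mem_GG {F : ℍ[ℤ] → ZMod 3} : F ∈ GG Φ N hN ↔ ∃ θ : N →+ ZMod 3, F = FF Φ N hN θ := Iff.rfl

/-- scalars congruent to `1` -/
theorem theta_mul (θ : N →+ ZMod 3) {v v' : ℂ} (hv : v ∈ N) (hv' : v' ∈ N) (n : ℤ)
    (hn : ((n : ℤ) : ZMod 3) = 1) (h : v' = n * v) : θ ⟨v', hv'⟩ = θ ⟨v, hv⟩ := by
  have e : (⟨v', hv'⟩ : N) = n • ⟨v, hv⟩ := by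
    apply Subtype.ext
    simp [h]
  rw [e, map_zsmul, zsmul_eq_mul, hn, one_mul]

theorem vec_per (k : ℕ) (x y : ℍ[ℤ]) :
    vec (x + 3 ^ k * y) = fun i => vec x i + 3 ^ k * vec y i := by
  have e : (3 : ℍ[ℤ]) ^ k = ((3 ^ k : ℤ) : ℍ[ℤ]) := by push_cast; rfl
  have e1 : ∀ c : ℤ, ((c : ℍ[ℤ]) * y).imI = c * y.imI := fun c => by simp
  have e2 : ∀ c : ℤ, ((c : ℍ[ℤ]) * y).imJ = c * y.imJ := fun c => by simp
  have e3 : ∀ c : ℤ, ((c : ℍ[ℤ]) * y).imK = c * y.imK := fun c => by simp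
  rw [e]
  funext i
  fin_cases i
  · change (x + ((3 ^ k : ℤ) : ℍ[ℤ]) * y).imI = x.imI + 3 ^ k * y.imI
    rw [Quaternion.imI_add, e1]
  · change (x + ((3 ^ k : ℤ) : ℍ[ℤ]) * y).imJ = x.imJ + 3 ^ k * y.imJ
    rw [Quaternion.imJ_add, e2]
  · change (x + ((3 ^ k : ℤ) : ℍ[ℤ]) * y).imK = x.imK + 3 ^ k * y.imK
    rw [Quaternion.imK_add, e3]

theorem lev_FF {ℓ m k : ℕ} (hΦ : Form ℓ m Φ) (hℓ : Even ℓ)
    (hk : ∀ x y : Fin 3 → ℤ, nrm x % 3 = 1 → nrm y % 3 = 1 → (∀ i, (3 ^ k : ℤ) ∣ x i - y i) →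
      ∃ z ∈ N, Φ x - Φ y = 3 * z) (θ : N →+ ZMod 3) : Lev (k + 1) (FF Φ N hN θ) where
  per x y := by
    have hv := vec_per (k + 1) x y
    refine FF_congr θ ?_ fun hx hy => ?_
    · rw [hv]
      simp only [nrm]
      apply Int.ModEq.symm
      rw [Int.modEq_iff_dvd]
      refine ⟨3 ^ k * vec y 0 * (2 * vec x 0 + 3 ^ (k + 1) * vec y 0) +
        3 ^ k * vec y 1 * (2 * vec x 1 + 3 ^ (k + 1) * vec y 1) +
        3 ^ k * vec y 2 * (2 * vec x 2 + 3 ^ (k + 1) * vec y 2), ?_⟩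
      rw [pow_succ]
      ring
    · obtain ⟨z, hz, e⟩ := hk _ _ hx hy (by
        rw [hv]
        intro i
        exact ⟨3 * vec y i, by rw [pow_succ]; ring⟩)
      rw [← sub_eq_zero, ← map_sub]
      have e' : (⟨Φ (vec (x + 3 ^ (k + 1) * y)), hN _ hx⟩ - ⟨Φ (vec x), hN _ hy⟩ : N) =
          3 • ⟨z, hz⟩ := by
        apply Subtype.ext
        simp only [AddSubgroup.coe_sub, e]
        simp
      rw [e', map_nsmul]
      have : (3 : ZMod 3) = 0 := rfl
      rw [nsmul_eq_mul, Nat.cast_ofNat, this, zero_mul]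
  scal c x hc := by
    have hc3 : c % 3 = 1 ∨ c % 3 = 2 := by omega
    have hv : vec (c * x) = fun i => c * vec x i := by
      funext i
      fin_cases i <;> simp [vec]
    refine FF_congr θ ?_ fun hx hy => ?_
    · rw [hv]
      have : nrm (fun i => c * vec x i) = c ^ 2 * nrm (vec x) := by
        simp only [nrm]; ring
      rw [this, nrm_sq c hc3]
    · refine theta_mul θ (hN _ hy) (hN _ hx) (c ^ ℓ) ?_ ?_
      · obtain ⟨j, rfl⟩ := hℓ
        have h2 : ((c ^ 2 : ℤ) : ZMod 3) = 1 := by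
          have : c ^ 2 % 3 = 1 := by
            have := nrm_sq c hc3 1
            simpa using this
          have h3 : ((c ^ 2 : ℤ) : ZMod 3) = ((1 : ℤ) : ZMod 3) := by
            rw [ZMod.intCast_eq_intCast_iff]
            exact this
          simpa using h3
        rw [← two_mul, pow_mul, Int.cast_pow, h2, one_pow]
      · rw [hv, hΦ.scal c _ hc]
        push_cast
        rfl
  real r x := by
    have hv : vec (x + r) = vec x := by
      funext i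
      fin_cases i <;> simp [vec]
    exact FF_congr θ (by rw [hv]) fun hx hy => by simp only [hv]
  supp x hx := by
    rw [← nrm_vec] at hx
    exact FF_of_not θ hx

theorem nrm_perm (σ : Equiv.Perm (Fin 3)) (ε : Fin 3 → ℤˣ) (x : Fin 3 → ℤ) :
    nrm (fun i => (ε i : ℤ) * x (σ i)) = nrm x := by
  have h1 : ∀ y : Fin 3 → ℤ, nrm y = ∑ i, y i ^ 2 := fun y => by
    rw [Fin.sum_univ_three]; rfl
  rw [h1, h1]
  have h2 : ∀ i, ((ε i : ℤ) * x (σ i)) ^ 2 = x (σ i) ^ 2 := by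
    intro i
    rw [mul_pow]
    have : ((ε i : ℤ)) ^ 2 = 1 := by
      rcases Int.units_eq_one_or (ε i) with h | h <;> rw [h] <;> simp
    rw [this, one_mul]
  rw [Finset.sum_congr rfl fun i _ => h2 i]
  exact Equiv.sum_comp σ fun i => x i ^ 2

theorem cube_FF {ℓ m : ℕ} (hΦ : Form ℓ m Φ) (θ : N →+ ZMod 3) : Cube (FF Φ N hN θ) := by
  intro σ ε x
  refine FF_congr θ ?_ fun hx hy => ?_
  · rw [vec_pt, vec_pt, nrm_perm]
  · congr 1
    apply Subtype.ext
    simp only [vec_pt]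
    exact hΦ.cube σ ε x

/-- the norm of `q` -/
def nq (q : ℍ[ℤ]) : ℤ := q.re ^ 2 + q.imI ^ 2 + q.imJ ^ 2 + q.imK ^ 2

/-- sums over finitely many quaternions -/
def TL (L : List ℍ[ℤ]) (F : ℍ[ℤ] → ZMod 3) (x : ℍ[ℤ]) : ZMod 3 :=
  (L.map fun q => rho q F x).sum

theorem hecke_FF (L : List ℍ[ℤ]) (hL : ∀ q ∈ L, nq q % 3 = 1 ∨ nq q % 3 = 2) (c : ℂ)
    (hc : ∀ x : Fin 3 → ℤ, nrm x % 3 = 1 →
      c * Φ x = 8 * (L.map fun q => Φ (vec (star q * pt x * q))).sum)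
    (hgen : N = AddSubgroup.closure (Set.image Φ {x | nrm x % 3 = 1}))
    (θ : N →+ ZMod 3) : ∃ θ' : N →+ ZMod 3, TL L (FF Φ N hN θ) = FF Φ N hN θ' := by
  have hnq : ∀ q ∈ L, ∀ x : ℍ[ℤ], nrm (vec (star q * x * q)) % 3 = nrm (vec x) % 3 := by
    intro q hq x
    rw [nrm_conj]
    exact nrm_sq (nq q) (hL q hq) _
  have hsum : ∀ (L' : List ℍ[ℤ]), (∀ q ∈ L', q ∈ L) → ∀ x : Fin 3 → ℤ, nrm x % 3 = 1 →
      ∃ h : (L'.map fun q => Φ (vec (star q * pt x * q))).sum ∈ N,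
        (L'.map fun q => rho q (FF Φ N hN θ) (pt x)).sum = θ ⟨_, h⟩ := by
    intro L'
    induction L' with
    | nil =>
      intro _ x _
      exact ⟨by simp, by
        simp only [List.map_nil, List.sum_nil]
        exact (map_zero θ).symm⟩
    | cons q L' ih =>
      intro hsub x hx
      obtain ⟨h, e⟩ := ih (fun q' hq' => hsub q' (by simp [hq'])) x hx
      have h1 : nrm (vec (star q * pt x * q)) % 3 = 1 := by
        rw [hnq q (hsub q (by simp)), vec_pt]; exact hx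
      refine ⟨?_, ?_⟩
      · rw [List.map_cons, List.sum_cons]
        exact N.add_mem (hN _ h1) h
      · rw [List.map_cons, List.sum_cons, e]
        change FF Φ N hN θ (star q * pt x * q) + _ = _
        rw [FF_of θ h1, ← map_add]
        rfl
  -- multiplication by `c`
  have hmul : ∀ v ∈ N, c * v ∈ N := by
    intro v hv
    have hle : N ≤ N.comap (AddMonoidHom.mulLeft c) := by
      rw [hgen, AddSubgroup.closure_le]
      rintro _ ⟨x, hx, rfl⟩
      change c * Φ x ∈ AddSubgroup.closure _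
      rw [← hgen]
      have hx' : nrm x % 3 = 1 := hx
      rw [hc x hx']
      obtain ⟨h, -⟩ := hsum L (fun _ h => h) x hx'
      have := N.nsmul_mem h 8
      simpa using this
    exact hle hv
  let μ : N →+ N := ((AddMonoidHom.mulLeft c).comp N.subtype).codRestrict N
    fun v => hmul _ v.2
  refine ⟨2 • (θ.comp μ), funext fun x => ?_⟩
  by_cases hx : nrm (vec x) % 3 = 1
  · rw [FF_of _ hx]
    obtain ⟨h, e⟩ := hsum L (fun _ h => h) (vec x) hx
    have e0 : TL L (FF Φ N hN θ) x = (L.map fun q => rho q (FF Φ N hN θ) (pt (vec x))).sum := by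
      unfold TL
      congr 1
      apply List.map_congr_left
      intro q hq
      refine FF_congr θ ?_ fun h1 h2 => ?_
      · rw [vec_conj]
      · congr 1
        apply Subtype.ext
        simp only
        rw [vec_conj]
    rw [e0, e]
    have e1 : μ ⟨Φ (vec x), hN _ hx⟩ = 8 • (⟨_, h⟩ : N) := by
      apply Subtype.ext
      change c * Φ (vec x) = _
      rw [hc _ hx]
      simp
    change _ = (2 : ℕ) • θ (μ ⟨Φ (vec x), hN _ hx⟩)
    rw [e1, map_nsmul, smul_smul, nsmul_eq_mul]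
    have : (((2 * 8 : ℕ) : ℕ) : ZMod 3) = 1 := rfl
    rw [this, one_mul]
  · rw [FF_of_not _ hx]
    unfold TL
    rw [List.sum_eq_zero]
    intro z hz
    rw [List.mem_map] at hz
    obtain ⟨q, hq, rfl⟩ := hz
    exact FF_of_not θ (by rw [hnq q hq]; exact hx)

/-- a homomorphism that does not vanish -/
theorem exists_theta (hfg : N.FG) {v : ℂ} (hv : v ∈ N) (hv0 : v ≠ 0) :
    ∃ θ : N →+ ZMod 3, θ ≠ 0 := by
  have : AddGroup.FG N := (AddGroup.fg_iff_addSubgroup_fg N).2 hfg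
  have : Module.Finite ℤ N := Module.Finite.iff_addGroup_fg.2 this
  have : Module.Free ℤ N := Module.free_of_finite_type_torsion_free'
  have : Nontrivial N := ⟨⟨v, hv⟩, 0, fun h => hv0 (congrArg Subtype.val h)⟩
  let b := Module.Free.chooseBasis ℤ N
  obtain ⟨i⟩ : Nonempty (Module.Free.ChooseBasisIndex ℤ N) := inferInstance
  refine ⟨(Int.castAddHom (ZMod 3)).comp (b.coord i).toAddMonoidHom, fun h => ?_⟩
  have := congrArg (fun φ : N →+ ZMod 3 => φ (b i)) h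
  simp at this

end RedAux

open RedAux in
theorem stRed (h1 : StKL) (h2 : StHecke) (h3 : StFin) : StRed := by
  intro ℓ m Φ hΦ hℓ h5 h7 hne
  obtain ⟨hfg, k, hk⟩ := h3 ℓ m Φ hΦ
  set N := AddSubgroup.closure (Set.image Φ {x | nrm x % 3 = 1}) with hNdef
  have hN : ∀ x, nrm x % 3 = 1 → Φ x ∈ N := fun x hx => AddSubgroup.subset_closure ⟨x, hx, rfl⟩
  obtain ⟨x₀, hx₀, hx₀'⟩ := hne
  obtain ⟨θ₀, hθ₀⟩ := exists_theta hfg (hN _ hx₀) hx₀'
  obtain ⟨c5, hc5⟩ := h5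
  obtain ⟨c7, hc7⟩ := h7
  have key : one3 ∈ GG Φ N hN := by
    refine h1 (k + 1) (GG Φ N hN) ?_ ?_ ?_ ?_
    · rintro F ⟨θ, rfl⟩
      exact ⟨lev_FF hΦ hℓ hk θ, cube_FF hΦ θ⟩
    · rintro F ⟨θ, rfl⟩
      obtain ⟨θ', e⟩ := hecke_FF (Φ := Φ) (N := N) (hN := hN)
        [⟨1, 2, 0, 0⟩, ⟨1, -2, 0, 0⟩, ⟨1, 0, 2, 0⟩, ⟨1, 0, -2, 0⟩, ⟨1, 0, 0, 2⟩, ⟨1, 0, 0, -2⟩]
        (by
          intro q hq
          simp only [List.mem_cons, List.not_mem_nil, or_false] at hq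
          rcases hq with rfl | rfl | rfl | rfl | rfl | rfl <;> simp [nq])
        c5 (by
          intro x hx
          rw [← hc5 x hx, (h2 Φ hΦ.cube x).1]
          simp only [List.map_cons, List.map_nil, List.sum_cons, List.sum_nil]
          ring) hNdef θ
      refine ⟨θ', ?_⟩
      rw [← e]
      funext x
      simp only [T5, TL, Pi.add_apply, List.map_cons, List.map_nil, List.sum_cons, List.sum_nil]
      ring
    · rintro F ⟨θ, rfl⟩
      obtain ⟨θ', e⟩ := hecke_FF (Φ := Φ) (N := N) (hN := hN)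
        [⟨2, 1, 1, 1⟩, ⟨2, 1, 1, -1⟩, ⟨2, 1, -1, 1⟩, ⟨2, 1, -1, -1⟩, ⟨2, -1, 1, 1⟩,
          ⟨2, -1, 1, -1⟩, ⟨2, -1, -1, 1⟩, ⟨2, -1, -1, -1⟩]
        (by
          intro q hq
          simp only [List.mem_cons, List.not_mem_nil, or_false] at hq
          rcases hq with rfl | rfl | rfl | rfl | rfl | rfl | rfl | rfl <;> simp [nq])
        c7 (by
          intro x hx
          rw [← hc7 x hx, (h2 Φ hΦ.cube x).2]
          simp only [List.map_cons, List.map_nil, List.sum_cons, List.sum_nil]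
          ring) hNdef θ
      refine ⟨θ', ?_⟩
      rw [← e]
      funext x
      simp only [T7, TL, Pi.add_apply, List.map_cons, List.map_nil, List.sum_cons, List.sum_nil]
      ring
    · intro hbot
      apply hθ₀
      have hz : FF Φ N hN θ₀ = 0 := by
        have : FF Φ N hN θ₀ ∈ GG Φ N hN := ⟨θ₀, rfl⟩
        rw [hbot] at this
        simpa using this
      ext ⟨v, hv⟩
      change θ₀ ⟨v, hv⟩ = 0
      induction hv using AddSubgroup.closure_induction with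
      | mem v hv' =>
        obtain ⟨x, hx, rfl⟩ := hv'
        have := congrFun hz (pt x)
        rw [FF_of θ₀ (by rw [vec_pt]; exact hx)] at this
        simp only [vec_pt] at this
        exact this
      | zero => exact map_zero θ₀
      | add u v hu hv iu iv =>
        have : (⟨u + v, N.add_mem hu hv⟩ : N) = ⟨u, hu⟩ + ⟨v, hv⟩ := rfl
        rw [this, map_add, iu, iv, add_zero]
      | neg u hu iu =>
        have : (⟨-u, N.neg_mem hu⟩ : N) = -⟨u, hu⟩ := rfl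
        rw [this, map_neg, iu, neg_zero]
  obtain ⟨θ, hθ⟩ := key
  refine ⟨N, θ, fun x hx => ⟨hN x hx, ?_⟩⟩
  have := congrFun hθ (pt x)
  rw [FF_of θ (by rw [vec_pt]; exact hx)] at this
  have h1' : one3 (pt x) = 1 := by
    unfold one3
    rw [← nrm_vec, vec_pt, if_pos hx]
  rw [h1'] at this
  simpa only [vec_pt] using this.symm

end

end TOR

end Pool.Agent.Lib.MP_7c5fb9_nt
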