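import Pool.Agent.Lib.MP_7c5fb9_nt.TOR.Stmts

set_option autoImplicit false

/-!
# Module Tern: positive definite ternary forms of determinant one
-/

namespace Pool.Agent.Lib.MP_7c5fb9_nt

namespace TOR

namespace TernAux

/-- Division with a small remainder. -/
lemma exists_shift (A B : ℤ) (hA : 0 < A) : ∃ t : ℤ, -A ≤ 2 * (B + t * A) ∧ 2 * (B + t * A) ≤ A := by
  refine ⟨-((2 * B + A) / (2 * A)), ?_, ?_⟩
  · have h1 := Int.emod_add_mul_ediv (2 * B + A) (2 * A)
    have h2 := Int.emod_nonneg (2 * B + A) (show (2 * A) ≠ 0 by omega)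
    linarith
  · have h1 := Int.emod_add_mul_ediv (2 * B + A) (2 * A)
    have h2 := Int.emod_lt_of_pos (2 * B + A) (show (0 : ℤ) < 2 * A by omega)
    linarith

/-- Binary forms of determinant one. -/
lemma binary (n : ℕ) : ∀ A B C : ℤ, A.toNat = n → 0 < A → A * C - B ^ 2 = 1 → ∀ y z : ℤ,
    ∃ u v : ℤ, u ^ 2 + v ^ 2 = A * y ^ 2 + 2 * B * y * z + C * z ^ 2 := by
  induction n using Nat.strong_induction_on with
  | _ n ih =>
    intro A B C hn hA hdet y z
    by_cases h1 : A = 1
    · subst h1
      refine ⟨y + B * z, z, ?_⟩
      linear_combination (-z ^ 2) * hdet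
    · obtain ⟨t, ht1, ht2⟩ := exists_shift A B hA
      set B' := B + t * A with hB'
      have hC' : A * (C + 2 * t * B + t ^ 2 * A) - B' ^ 2 = 1 := by
        rw [hB']; linear_combination hdet
      set C' := C + 2 * t * B + t ^ 2 * A with hC'def
      have h4 : 4 * B' ^ 2 ≤ A ^ 2 := by nlinarith
      have hpos : 0 < C' := by
        by_contra h
        push Not at h
        nlinarith [sq_nonneg B']
      have hlt : C' < A := by
        by_contra h
        push Not at h
        have h5 : A * A ≤ A * C' := mul_le_mul_of_nonneg_left h hA.le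
        have h6 : 2 ≤ A := by omega
        nlinarith [mul_le_mul h6 h6 (by norm_num) hA.le]
      obtain ⟨u, v, huv⟩ := ih C'.toNat (by omega) C' B' A rfl hpos (by linarith) z (y - t * z)
      refine ⟨u, v, ?_⟩
      rw [huv, hC'def, hB']
      ring

/-- The property which is proved. -/
def Rep (a b c d e f : ℤ) : Prop := ∀ x y z : ℤ, ∃ v : Fin 3 → ℤ,
  nrm v = a * x ^ 2 + d * y ^ 2 + f * z ^ 2 + 2 * b * x * y + 2 * c * x * z + 2 * e * y * z

lemma Rep.swapYZ {a b c d e f : ℤ} (h : Rep a c b f e d) : Rep a b c d e f := by
  intro x y z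
  obtain ⟨v, hv⟩ := h x z y
  exact ⟨v, by rw [hv]; ring⟩

lemma Rep.swapXY {a b c d e f : ℤ} (h : Rep d b e a c f) : Rep a b c d e f := by
  intro x y z
  obtain ⟨v, hv⟩ := h y x z
  exact ⟨v, by rw [hv]; ring⟩

lemma Rep.shiftYZ {a b c d e f : ℤ} (t : ℤ)
    (h : Rep a b (c + t * b) d (e + t * d) (f + 2 * t * e + t ^ 2 * d)) : Rep a b c d e f := by
  intro x y z
  obtain ⟨v, hv⟩ := h x (y - t * z) z
  exact ⟨v, by rw [hv]; ring⟩

lemma Rep.shiftXY {a b c d e f : ℤ} (s : ℤ)
    (h : Rep a (b + s * a) c (d + 2 * s * b + s ^ 2 * a) (e + s * c) f) : Rep a b c d e f := by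
  intro x y z
  obtain ⟨v, hv⟩ := h (x - s * y) y z
  exact ⟨v, by rw [hv]; ring⟩

lemma rep_one {b c d e f : ℤ} (hd : 0 < d - b ^ 2)
    (hdet : (d * f - e ^ 2) - b * (b * f - e * c) + c * (b * e - d * c) = 1) :
    Rep 1 b c d e f := by
  intro x y z
  obtain ⟨u, v, huv⟩ := binary _ (d - b ^ 2) (e - b * c) (f - c ^ 2) rfl hd
    (by linear_combination hdet) y z
  refine ⟨![x + b * y + c * z, u, v], ?_⟩
  simp only [nrm, Matrix.cons_val_zero, Matrix.cons_val_one, Matrix.cons_val]
  linear_combination huv

lemma main (n : ℕ) : ∀ m : ℕ, ∀ a b c d e f : ℤ, a.toNat = n → (a * d - b ^ 2).toNat = m →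
    0 < a → 0 < a * d - b ^ 2 →
    a * (d * f - e ^ 2) - b * (b * f - e * c) + c * (b * e - d * c) = 1 →
    Rep a b c d e f := by
  induction n using Nat.strong_induction_on with
  | _ n ihn =>
    intro m
    induction m using Nat.strong_induction_on with
    | _ m ihm =>
      intro a b c d e f hn hm ha hA hdet
      by_cases ha1 : a = 1
      · subst ha1
        exact rep_one (by linarith) (by linarith)
      set A := a * d - b ^ 2 with hAdef
      by_cases hsmall : 3 * A ^ 2 ≤ 4 * a
      · -- reduce the first coefficient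
        obtain ⟨s, hs1, hs2⟩ := exists_shift a b ha
        apply Rep.shiftXY s
        apply Rep.swapXY
        set b' := b + s * a with hb'
        set d' := d + 2 * s * b + s ^ 2 * a with hd'
        have hA' : a * d' - b' ^ 2 = A := by
          rw [hAdef, hd', hb']; ring
        have h4 : 4 * b' ^ 2 ≤ a ^ 2 := by nlinarith
        have ha2 : 2 ≤ a := by omega
        have hAlt : 4 * A < 3 * a ^ 2 := by
          by_contra h
          push Not at h
          have h5 : (3 * a ^ 2) * (3 * a ^ 2) ≤ (4 * A) * (4 * A) :=
            mul_le_mul h h (by positivity) (by positivity)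
          have h6 : 9 * a ^ 4 ≤ 16 * A ^ 2 := by nlinarith
          have h7 : 27 * a ^ 4 ≤ 64 * a := by nlinarith
          have h8 : 8 * a ≤ a ^ 4 := by
            have h9 : 4 ≤ a ^ 2 := by nlinarith
            have h10 : 8 ≤ a ^ 3 := by nlinarith
            nlinarith
          linarith
        have hpos : 0 < d' := by
          by_contra h
          push Not at h
          nlinarith [sq_nonneg b']
        have hlt : d' < a := by
          by_contra h
          push Not at h
          have h5 : a * a ≤ a * d' := mul_le_mul_of_nonneg_left h ha.le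
          nlinarith
        refine ihn d'.toNat (by omega) _ d' b' (e + s * c) a c f rfl rfl hpos (by linarith) ?_
        rw [hd', hb']
        linear_combination hdet
      · push Not at hsmall
        obtain ⟨t, ht1, ht2⟩ := exists_shift A (a * e - b * c) hA
        apply Rep.shiftYZ t
        apply Rep.swapYZ
        set B' := a * e - b * c + t * A with hB'
        set c' := c + t * b with hc'
        set e' := e + t * d with he'
        set f' := f + 2 * t * e + t ^ 2 * d with hf'
        have hB'' : a * e' - b * c' = B' := by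
          rw [hB', he', hc', hAdef]; ring
        have hC' : A * (a * f' - c' ^ 2) - B' ^ 2 = a := by
          rw [← hB'', hAdef, he', hc', hf']
          linear_combination a * hdet
        set C' := a * f' - c' ^ 2 with hC'def
        have h4 : 4 * B' ^ 2 ≤ A ^ 2 := by nlinarith
        have hpos : 0 < C' := by
          by_contra h
          push Not at h
          nlinarith [sq_nonneg B']
        have hlt : C' < A := by
          by_contra h
          push Not at h
          have h5 : A * A ≤ A * C' := mul_le_mul_of_nonneg_left h hA.le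
          nlinarith
        refine ihm C'.toNat (by omega) a c' b f' e' d hn rfl ha hpos ?_
        rw [hc', he', hf']
        linear_combination hdet

end TernAux

theorem stTern : StTern := by
  intro a b c d e f ha hd hdet
  exact TernAux.main _ _ a b c d e f rfl rfl ha hd hdet

end TOR

end Pool.Agent.Lib.MP_7c5fb9_nt
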