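import Pool.Agent.Lib.MP_7c5fb9_nt.TOR.Stmts

set_option autoImplicit false

/-!
# Sums of three squares (project TOR)
-/

namespace Pool.Agent.Lib.MP_7c5fb9_nt

namespace TOR

namespace ThreeAux

open NumberTheorySymbols ZMod

/-- The lemma of Dirichlet: if `-d` is a square modulo `d n - 1`, then `n` is a sum of three
squares. -/
theorem of_square (h1 : StTern) (n d : ℤ) (hn : 2 ≤ n) (hd : 0 < d) (b : ℤ)
    (hb : d * n - 1 ∣ b ^ 2 + d) : ∃ x : Fin 3 → ℤ, nrm x = n := by
  obtain ⟨a, ha⟩ := hb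
  have hm : 0 < d * n - 1 := by nlinarith
  have ha0 : 0 < a := by
    by_contra hc
    have : (d * n - 1) * a ≤ 0 := by nlinarith
    nlinarith [sq_nonneg b]
  have hdet : a * (d * n - 1) - b ^ 2 = d := by linarith [mul_comm a (d * n - 1)]
  have h2 : 0 < a * (d * n - 1) - b ^ 2 := by rw [hdet]; exact hd
  have h3 : a * ((d * n - 1) * n - 0 ^ 2) - b * (b * n - 0 * 1) + 1 * (b * 0 - (d * n - 1) * 1)
      = 1 := by
    have : a * ((d * n - 1) * n - 0 ^ 2) - b * (b * n - 0 * 1) + 1 * (b * 0 - (d * n - 1) * 1)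
      = n * (a * (d * n - 1) - b ^ 2) - (d * n - 1) := by ring
    rw [this, hdet]; ring
  obtain ⟨v, hv⟩ := h1 a b 1 (d * n - 1) 0 n ha0 h2 h3 0 0 1
  exact ⟨v, by rw [hv]; ring⟩

/-- A square root modulo a prime. -/
theorem exists_sq {p : ℕ} (hp : p.Prime) {a : ℤ} (h : J(a | p) = 1) :
    ∃ b : ℤ, (p : ℤ) ∣ b ^ 2 - a := by
  have : Fact p.Prime := ⟨hp⟩
  obtain ⟨r, hr⟩ := isSquare_of_jacobiSym_eq_one h
  refine ⟨r.val, ?_⟩
  rw [← ZMod.intCast_zmod_eq_zero_iff_dvd]
  push_cast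
  rw [ZMod.natCast_val, ZMod.cast_id, hr]
  ring

/-- The case `n = 2` modulo `4`. -/
theorem case_two (h1 : StTern) (n : ℕ) (hn : n % 4 = 2) : ∃ x : Fin 3 → ℤ, nrm x = n := by
  have hcop : (n - 1).Coprime (4 * n) := by
    have e1 : (n - 1).Coprime n := by
      have : n = (n - 1) + 1 := by omega
      conv_rhs => rw [this]
      simp
    have e2 : (n - 1).Coprime 4 := by
      have : Nat.Coprime (n - 1) (2 ^ 2) := by
        apply Nat.Coprime.pow_right
        rw [Nat.coprime_two_right]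
        exact Nat.odd_iff.2 (by omega)
      simpa using this
    exact Nat.Coprime.mul_right e2 e1
  obtain ⟨p, hgt, hp, hmod⟩ := Nat.forall_exists_prime_gt_and_modEq (4 * n)
    (q := 4 * n) (a := n - 1) (by omega) hcop
  have hmod' : p % (4 * n) = n - 1 := by
    rw [hmod]
    exact Nat.mod_eq_of_lt (by omega)
  obtain ⟨j, hj⟩ : ∃ j, p = 4 * n * j + (n - 1) := ⟨p / (4 * n), by
    have := Nat.div_add_mod p (4 * n); omega⟩
  have hpd : p + 1 = (4 * j + 1) * n := by
    have : 1 ≤ n := by omega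
    zify [this] at hj ⊢
    rw [hj]; ring
  have hp4 : p % 4 = 1 := by
    have : 4 * n * j = 4 * (n * j) := by ring
    omega
  have hodd : Odd (4 * j + 1) := ⟨2 * j, by ring⟩
  have hpodd : Odd p := Nat.odd_iff.2 (by omega)
  have hJ : J(-((4 * j + 1 : ℕ) : ℤ) | p) = 1 := by
    have e0 : -((4 * j + 1 : ℕ) : ℤ) = -1 * ((4 * j + 1 : ℕ) : ℤ) := by ring
    rw [e0, jacobiSym.mul_left, jacobiSym.at_neg_one hpodd, χ₄_nat_one_mod_four hp4, one_mul,
      jacobiSym.quadratic_reciprocity_one_mod_four' hodd hp4]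
    have : J((p : ℤ) | 4 * j + 1) = J(-1 | 4 * j + 1) := by
      apply jacobiSym.mod_left'
      apply Int.ModEq.eq
      rw [Int.modEq_iff_dvd]
      refine ⟨-n, ?_⟩
      have : (p : ℤ) + 1 = (4 * j + 1) * n := by exact_mod_cast hpd
      push_cast
      linarith
    rw [this, jacobiSym.at_neg_one hodd, χ₄_nat_one_mod_four (by omega)]
  obtain ⟨b, hb⟩ := exists_sq hp hJ
  refine of_square h1 n (4 * j + 1) (by omega) (by omega) b ?_
  have e : (p : ℤ) = (4 * j + 1) * n - 1 := by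
    have : (p : ℤ) + 1 = (4 * j + 1) * n := by exact_mod_cast hpd
    linarith
  rw [← e]
  convert hb using 1
  push_cast; ring

/-- The odd cases. -/
theorem case_odd (h1 : StTern) (n c t : ℕ) (hn : 2 ≤ n) (hodd : n % 2 = 1) (hc : c = 1 ∨ c = 3)
    (ht : 2 * t + 1 = c * n) (hcase : t % 4 = 1 ∨ t % 4 = 3 ∧ c = 3) :
    ∃ x : Fin 3 → ℤ, nrm x = n := by
  have hcop : t.Coprime (4 * n) := by
    have e1 : t.Coprime n := by
      have h2 : Nat.Coprime t (c * n) := by
        rw [← ht]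
        have : 2 * t + 1 = 1 + t * 2 := by ring
        rw [this]; simp
      exact Nat.Coprime.coprime_mul_left_right h2
    have e2 : t.Coprime 4 := by
      have : Nat.Coprime t (2 ^ 2) := by
        apply Nat.Coprime.pow_right
        rw [Nat.coprime_two_right]
        exact Nat.odd_iff.2 (by omega)
      simpa using this
    exact Nat.Coprime.mul_right e2 e1
  obtain ⟨p, hgt, hp, hmod⟩ := Nat.forall_exists_prime_gt_and_modEq (4 * n)
    (q := 4 * n) (a := t) (by omega) hcop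
  have htn : t < 4 * n := by rcases hc with rfl | rfl <;> omega
  have hmod' : p % (4 * n) = t := by
    rw [hmod]
    exact Nat.mod_eq_of_lt htn
  obtain ⟨j, hj⟩ : ∃ j, p = 4 * n * j + t := ⟨p / (4 * n), by
    have := Nat.div_add_mod p (4 * n); omega⟩
  have hpd : 2 * p + 1 = (8 * j + c) * n := by
    rw [hj]; linear_combination ht
  have hp4 : p % 4 = t % 4 := by
    have : 4 * n * j = 4 * (n * j) := by ring
    omega
  have hdodd : Odd (8 * j + c) := Nat.odd_iff.2 (by omega)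
  have hpodd : Odd p := Nat.odd_iff.2 (by omega)
  have hd8 : (8 * j + c) % 8 = 1 ∨ (8 * j + c) % 8 = 3 := by omega
  have hneg2 : J(-2 | 8 * j + c) = 1 := by
    rw [jacobiSym.at_neg_two hdodd, χ₈'_nat_eq_if_mod_eight]
    rcases hd8 with h | h
    · rw [if_neg (by omega), if_pos (Or.inl h)]
    · rw [if_neg (by omega), if_pos (Or.inr h)]
  have hpJ : J((p : ℤ) | 8 * j + c) = 1 := by
    have e1 : J(-2 * (p : ℤ) | 8 * j + c) = 1 := by
      have : J(-2 * (p : ℤ) | 8 * j + c) = J(1 | 8 * j + c) := by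
        apply jacobiSym.mod_left'
        apply Int.ModEq.eq
        rw [Int.modEq_iff_dvd]
        refine ⟨n, ?_⟩
        have : 2 * (p : ℤ) + 1 = (8 * j + c) * n := by exact_mod_cast hpd
        push_cast
        linarith
      rw [this, jacobiSym.one_left]
    rw [jacobiSym.mul_left, hneg2, one_mul] at e1
    exact e1
  have hJ : J(-((8 * j + c : ℕ) : ℤ) | p) = 1 := by
    have e0 : -((8 * j + c : ℕ) : ℤ) = -1 * ((8 * j + c : ℕ) : ℤ) := by ring
    rcases hcase with h | ⟨h, hc3⟩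
    · have hp1 : p % 4 = 1 := by omega
      rw [e0, jacobiSym.mul_left, jacobiSym.at_neg_one hpodd, χ₄_nat_one_mod_four hp1, one_mul,
        jacobiSym.quadratic_reciprocity_one_mod_four' hdodd hp1, hpJ]
    · have hp1 : p % 4 = 3 := by omega
      rw [e0, jacobiSym.mul_left, jacobiSym.at_neg_one hpodd, χ₄_nat_three_mod_four hp1,
        jacobiSym.quadratic_reciprocity_three_mod_four (by omega) hp1, hpJ]
      norm_num
  obtain ⟨b, hb⟩ := exists_sq hp hJ
  have hodd' : ∃ b' : ℤ, (p : ℤ) ∣ b' ^ 2 - (-((8 * j + c : ℕ) : ℤ)) ∧ Odd b' := by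
    rcases Int.even_or_odd b with he | ho
    · refine ⟨b + p, ?_, ?_⟩
      · have : (b + p) ^ 2 - (-((8 * j + c : ℕ) : ℤ)) =
            (b ^ 2 - (-((8 * j + c : ℕ) : ℤ))) + p * (2 * b + p) := by ring
        rw [this]
        exact dvd_add hb (dvd_mul_right _ _)
      · exact he.add_odd (by exact_mod_cast hpodd)
    · exact ⟨b, hb, ho⟩
  obtain ⟨b', hb', hbo⟩ := hodd'
  refine of_square h1 n (8 * j + c : ℕ) (by omega) (by omega) b' ?_
  have e : ((8 * j + c : ℕ) : ℤ) * n - 1 = 2 * p := by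
    have : 2 * (p : ℤ) + 1 = ((8 * j + c : ℕ) : ℤ) * n := by exact_mod_cast hpd
    linarith
  rw [e]
  have h2 : (2 : ℤ) ∣ b' ^ 2 + ((8 * j + c : ℕ) : ℤ) := by
    have e1 : Odd (b' ^ 2) := hbo.pow
    have e2 : Odd ((8 * j + c : ℕ) : ℤ) := by exact_mod_cast hdodd
    exact (e1.add_odd e2).two_dvd
  have hp' : (p : ℤ) ∣ b' ^ 2 + ((8 * j + c : ℕ) : ℤ) := by
    have : b' ^ 2 + ((8 * j + c : ℕ) : ℤ) = b' ^ 2 - (-((8 * j + c : ℕ) : ℤ)) := by ring
    rw [this]; exact hb'
  have hco : IsCoprime (2 : ℤ) (p : ℤ) := by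
    have : Nat.Coprime 2 p := Nat.coprime_two_left.2 hpodd
    exact_mod_cast Nat.isCoprime_iff_coprime.2 this
  exact hco.mul_dvd h2 hp'

end ThreeAux

open ThreeAux in
/-- (Three). -/
theorem stThree (h1 : StTern) : StThree := by
  intro n hsq h7
  have h4 : ¬ 4 ∣ n := by
    intro h
    have := hsq 2 (by simpa using h)
    exact absurd (Nat.isUnit_iff.1 this) (by norm_num)
  have h4' : n % 4 ≠ 0 := fun h => h4 (Nat.dvd_of_mod_eq_zero h)
  by_cases h1' : n = 1
  · subst h1'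
    exact ⟨![1, 0, 0], by simp [nrm]⟩
  have hn2 : 2 ≤ n := by omega
  have hcases : n % 4 = 2 ∨ n % 8 = 1 ∨ n % 8 = 3 ∨ n % 8 = 5 := by omega
  rcases hcases with h | h | h | h
  · exact case_two h1 n h
  · exact case_odd h1 n 3 ((3 * n - 1) / 2) hn2 (by omega) (Or.inr rfl) (by omega) (by omega)
  · exact case_odd h1 n 1 ((n - 1) / 2) hn2 (by omega) (Or.inl rfl) (by omega) (by omega)
  · exact case_odd h1 n 3 ((3 * n - 1) / 2) hn2 (by omega) (Or.inr rfl) (by omega) (by omega)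

end TOR

end Pool.Agent.Lib.MP_7c5fb9_nt
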