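import Pool.Agent.Lib.MP_7c5fb9_nt.TOR.Stmts

set_option autoImplicit false

/-!
# Existence and norm of toric points
-/

namespace Pool.Agent.Lib.MP_7c5fb9_nt

namespace TOR

open scoped Quaternion nonZeroDivisors

noncomputable section

namespace Toric

theorem hur_one : IsHur 1 := by
  refine ⟨2, 0, 0, 0, by norm_num, by norm_num, by norm_num, ?_⟩
  ext <;> simp

theorem hur_zero : IsHur 0 := by
  refine ⟨0, 0, 0, 0, by norm_num, by norm_num, by norm_num, ?_⟩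
  ext <;> simp

theorem ptQ_mul_self (y : Fin 3 → ℤ) : (ptQ y * ptQ y).re = -((nrm y : ℤ) : ℚ) := by
  simp [ptQ, nrm]; ring

theorem pure_of_sq {o : ℍ[ℚ]} {n : ℕ} (hn : 0 < n) (h : o * o = -(n : ℍ[ℚ])) : o.re = 0 := by
  by_contra hre
  have h1 := congrArg QuaternionAlgebra.re h
  have h2 := congrArg QuaternionAlgebra.imI h
  have h3 := congrArg QuaternionAlgebra.imJ h
  have h4 := congrArg QuaternionAlgebra.imK h
  simp at h1 h2 h3 h4
  have e2 : o.re * o.imI = 0 := by linarith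
  have e3 : o.re * o.imJ = 0 := by linarith
  have e4 : o.re * o.imK = 0 := by linarith
  have f2 : o.imI = 0 := (mul_eq_zero.1 e2).resolve_left hre
  have f3 : o.imJ = 0 := (mul_eq_zero.1 e3).resolve_left hre
  have f4 : o.imK = 0 := (mul_eq_zero.1 e4).resolve_left hre
  rw [f2, f3, f4] at h1
  have hn' : (0 : ℚ) < n := by exact_mod_cast hn
  nlinarith [mul_self_nonneg o.re]

theorem exists_ptQ {o : ℍ[ℚ]} (ho : IsHur o) (hre : o.re = 0) : ∃ y : Fin 3 → ℤ, o = ptQ y := by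
  obtain ⟨a, b, c, d, hb, hc, hd, rfl⟩ := ho
  have ha : a = 0 := by
    have : (a : ℚ) / 2 = 0 := hre
    have h2 : (a : ℚ) = 0 := by linarith
    exact_mod_cast h2
  subst ha
  obtain ⟨b', hb'⟩ : (2 : ℤ) ∣ b := by simpa using hb
  obtain ⟨c', hc'⟩ : (2 : ℤ) ∣ c := by simpa using hc
  obtain ⟨d', hd'⟩ : (2 : ℤ) ∣ d := by simpa using hd
  refine ⟨![b', c', d'], ?_⟩
  subst hb' hc' hd'
  ext <;> simp [ptQ]

section
variable {K : Type} [Field K] [NumberField K]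

omit [NumberField K] in
theorem integral_of_sq {s : K} {n : ℕ} (hs : s ^ 2 = -(n : K)) : IsIntegral ℤ s := by
  refine IsIntegral.of_pow (n := 2) (by norm_num) ?_
  rw [hs]
  exact IsIntegral.neg (isIntegral_natCast n)

omit [NumberField K] in
theorem sq_map {s : K} {n : ℕ} (hs : s ^ 2 = -(n : K)) (ι : K →+* ℍ[ℚ]) :
    ι s * ι s = -(n : ℍ[ℚ]) := by
  rw [← map_mul, ← pow_two, hs, map_neg, map_natCast]

theorem ext_hur (h1 : StHur) {ι : K →+* ℍ[ℚ]} (hι : Optimal ι)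
    (I : Ideal (NumberField.RingOfIntegers K)) : ∀ q ∈ ext ι I, IsHur q := by
  intro q hq
  refine AddSubgroup.closure_induction (p := fun q _ => IsHur q) ?_ hur_zero ?_ ?_ hq
  · rintro x ⟨a, _, o, ho, rfl⟩
    exact (h1.1 _ _ (hι a) ho).1
  · intro x y _ _ hx hy
    exact (h1.1 _ _ hx hy).2.1
  · intro x _ hx
    exact (h1.1 _ _ hx hx).2.2

theorem ext_mul {ι : K →+* ℍ[ℚ]} (h1 : StHur)
    (I : Ideal (NumberField.RingOfIntegers K)) : ∀ q ∈ ext ι I, ∀ o, IsHur o → q * o ∈ ext ι I := by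
  intro q hq o ho
  refine AddSubgroup.closure_induction (p := fun q _ => q * o ∈ ext ι I) ?_ ?_ ?_ ?_ hq
  · rintro x ⟨a, ha, o', ho', rfl⟩
    refine AddSubgroup.subset_closure ⟨a, ha, o' * o, (h1.1 _ _ ho' ho).1, ?_⟩
    rw [mul_assoc]
  · rw [zero_mul]
    exact (ext ι I).zero_mem
  · intro x y _ _ hx hy
    rw [add_mul]
    exact (ext ι I).add_mem hx hy
  · intro x _ hx
    rw [neg_mul]
    exact (ext ι I).neg_mem hx

theorem ext_smul {ι : K →+* ℍ[ℚ]}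
    (I : Ideal (NumberField.RingOfIntegers K)) (t : NumberField.RingOfIntegers K) :
    ∀ q ∈ ext ι I, ι (t : K) * q ∈ ext ι I := by
  intro q hq
  refine AddSubgroup.closure_induction (p := fun q _ => ι (t : K) * q ∈ ext ι I) ?_ ?_ ?_ ?_ hq
  · rintro x ⟨a, ha, o', ho', rfl⟩
    refine AddSubgroup.subset_closure ⟨t * a, I.mul_mem_left t ha, o', ho', ?_⟩
    rw [← mul_assoc, ← map_mul]
    rfl
  · rw [mul_zero]
    exact (ext ι I).zero_mem
  · intro x y _ _ hx hy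
    rw [mul_add]
    exact (ext ι I).add_mem hx hy
  · intro x _ hx
    rw [mul_neg]
    exact (ext ι I).neg_mem hx

theorem ext_ne_bot {ι : K →+* ℍ[ℚ]}
    (I : (Ideal (NumberField.RingOfIntegers K))⁰) :
    ext ι (I : Ideal (NumberField.RingOfIntegers K)) ≠ ⊥ := by
  have hI : (I : Ideal (NumberField.RingOfIntegers K)) ≠ ⊥ := nonZeroDivisors.ne_zero I.2
  obtain ⟨a, ha, ha0⟩ := Submodule.exists_mem_ne_zero_of_ne_bot hI
  intro h
  have hm : ι (a : K) * 1 ∈ ext ι (I : Ideal (NumberField.RingOfIntegers K)) :=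
    AddSubgroup.subset_closure ⟨a, ha, 1, hur_one, rfl⟩
  rw [h, AddSubgroup.mem_bot, mul_one] at hm
  have h0 : (a : K) = 0 := by
    rwa [map_eq_zero] at hm
  exact ha0 (NumberField.RingOfIntegers.ext h0)

theorem exists_pt (h1 : StHur) {s : K} {n : ℕ} (hn : 0 < n) (hs : s ^ 2 = -(n : K))
    {ι : K →+* ℍ[ℚ]} (hι : Optimal ι) (c : ClassGroup (NumberField.RingOfIntegers K)) :
    ∃ y, ToricPt ι s c y := by
  obtain ⟨I, hI⟩ := ClassGroup.mk0_surjective c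
  obtain ⟨γ, hγ, hA⟩ := h1.2 (ext ι (I : Ideal (NumberField.RingOfIntegers K))) (ext_ne_bot I)
    (ext_hur h1 hι _) (ext_mul h1 _)
  let t : NumberField.RingOfIntegers K := ⟨s, integral_of_sq hs⟩
  have hγm : γ ∈ ext ι (I : Ideal (NumberField.RingOfIntegers K)) :=
    (hA γ).2 ⟨1, hur_one, (mul_one γ).symm⟩
  obtain ⟨o, ho, hoe⟩ := (hA _).1 (ext_smul (ι := ι) _ t γ hγm)
  have hoe' : ι s * γ = γ * o := hoe
  have hoo : o * o = -(n : ℍ[ℚ]) := by
    have e1 : γ * (o * o) = γ * (-(n : ℍ[ℚ])) := by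
      rw [← mul_assoc, ← hoe', mul_assoc, ← hoe', ← mul_assoc, sq_map hs ι]
      rw [neg_mul, mul_neg, (Nat.cast_commute n γ).eq]
    exact mul_left_cancel₀ hγ e1
  obtain ⟨y, hy⟩ := exists_ptQ ho (pure_of_sq hn hoo)
  exact ⟨y, I, γ, hI, hγ, hA, by rw [← hy, hoe']⟩

theorem norm_pt {s : K} {n : ℕ} (hs : s ^ 2 = -(n : K))
    {ι : K →+* ℍ[ℚ]} {c : ClassGroup (NumberField.RingOfIntegers K)} {y : Fin 3 → ℤ}
    (h : ToricPt ι s c y) : nrm y = n := by
  obtain ⟨I, γ, _, hγ, _, he⟩ := h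
  have e1 : γ * (ptQ y * ptQ y) = γ * (-(n : ℍ[ℚ])) := by
    rw [← mul_assoc, he, mul_assoc, he, ← mul_assoc, sq_map hs ι]
    rw [neg_mul, mul_neg, (Nat.cast_commute n γ).eq]
  have e2 := mul_left_cancel₀ hγ e1
  have e3 := congrArg QuaternionAlgebra.re e2
  rw [ptQ_mul_self] at e3
  have e4 : (-(n : ℍ[ℚ])).re = -(n : ℚ) := by simp
  have e5 : -((nrm y : ℤ) : ℚ) = -(n : ℚ) := e3.trans e4
  have e6 : ((nrm y : ℤ) : ℚ) = (n : ℚ) := neg_inj.1 e5
  exact_mod_cast e6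

end

end Toric

/-- (Toric) -/
theorem stToric (h1 : StHur) : StToric := by
  intro K _ _ s n hn hs ι hι
  refine ⟨?_, fun c y h => Toric.norm_pt hs h⟩
  choose y hy using fun c => Toric.exists_pt h1 hn hs hι c
  exact ⟨y, hy⟩

end

end TOR

end Pool.Agent.Lib.MP_7c5fb9_nt
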